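import Mathlib.Combinatorics.Pigeonhole
import Mathlib.Data.Finset.Card
import Mathlib.Data.Finite.Defs
import Mathlib.Tactic

/-!
# The finite Ramsey theorem for `k`-subsets and finitely many colours
-/

set_option autoImplicit false

namespace Pool.Agent.Work.MP_b2b647_co

open Finset

/-- Finite Ramsey theorem for colourings of the `k`-subsets of a finite set of naturals. -/
theorem ramsey {c : Type*} [Finite c] (k : ℕ) : ∀ m : ℕ, ∃ N, ∀ S : Finset ℕ, N ≤ S.card →
    ∀ χ : Finset ℕ → c, ∃ H : Finset ℕ, H ⊆ S ∧ H.card = m ∧
      ∃ col : c, ∀ T : Finset ℕ, T ⊆ H → T.card = k → χ T = col := by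
  classical
  induction k with
  | zero =>
    intro m
    refine ⟨m, fun S hS χ => ?_⟩
    obtain ⟨H, hH, hcard⟩ := Finset.exists_subset_card_eq hS
    refine ⟨H, hH, hcard, χ ∅, fun T _ hT => ?_⟩
    rw [Finset.card_eq_zero.mp hT]
  | succ k ih =>
    -- sets on which the colour of a `(k+1)`-subset depends only on its least element
    have pre : ∀ t : ℕ, ∃ N, ∀ S : Finset ℕ, N ≤ S.card → ∀ χ : Finset ℕ → c,
        ∃ A : Finset ℕ, A ⊆ S ∧ A.card = t ∧ ∃ col : ℕ → Option c, ∀ T : Finset ℕ, T ⊆ A →
          T.card = k + 1 → ∀ x ∈ T, (∀ y ∈ T, x ≤ y) → some (χ T) = col x := by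
      intro t
      induction t with
      | zero =>
        refine ⟨0, fun S _ χ => ⟨∅, Finset.empty_subset _, rfl, fun _ => none, ?_⟩⟩
        intro T hT hcard
        rw [Finset.subset_empty.mp hT] at hcard
        simp at hcard
      | succ t iht =>
        obtain ⟨Nt, hNt⟩ := iht
        obtain ⟨M, hM⟩ := ih Nt
        refine ⟨M + 1, fun S hS χ => ?_⟩
        have hne : S.Nonempty := Finset.card_pos.mp (by omega)
        set x := S.min' hne with hx
        have hxS : x ∈ S := Finset.min'_mem S hne
        have hcardE : M ≤ (S.erase x).card := by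
          rw [Finset.card_erase_of_mem hxS]; omega
        obtain ⟨H, hHS, hHc, colx, hcolx⟩ := hM (S.erase x) hcardE (fun T => χ (insert x T))
        obtain ⟨A, hAH, hAc, col, hcol⟩ := hNt H hHc.ge χ
        have hxA : x ∉ A := fun h => by
          have := hHS (hAH h)
          exact (Finset.mem_erase.mp this).1 rfl
        refine ⟨insert x A, ?_, ?_, fun y => if y = x then some colx else col y, ?_⟩
        · intro y hy
          rcases Finset.mem_insert.mp hy with rfl | hy
          · exact hxS
          · exact Finset.mem_of_mem_erase (hHS (hAH hy))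
        · rw [Finset.card_insert_of_notMem hxA, hAc]
        · intro T hT hTc y hyT hymin
          by_cases hxT : x ∈ T
          · have hyx : y = x := by
              have h1 : y ≤ x := hymin x hxT
              have h2 : x ≤ y := by
                rcases Finset.mem_insert.mp (hT hyT) with h | h
                · exact h.ge
                · exact Finset.min'_le S y (Finset.mem_of_mem_erase (hHS (hAH h)))
              exact le_antisymm h1 h2
            simp only [hyx, if_true]
            have h3 : T = insert x (T.erase x) := (Finset.insert_erase hxT).symm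
            rw [h3]
            congr 1
            refine hcolx (T.erase x) ?_ ?_
            · intro z hz
              have hz' := Finset.mem_erase.mp hz
              rcases Finset.mem_insert.mp (hT hz'.2) with h | h
              · exact absurd h hz'.1
              · exact hAH h
            · rw [Finset.card_erase_of_mem hxT, hTc]; rfl
          · have hTA : T ⊆ A := by
              intro z hz
              rcases Finset.mem_insert.mp (hT hz) with h | h
              · exact absurd (h ▸ hz) hxT
              · exact h
            have hyx : y ≠ x := fun h => hxT (h ▸ hyT)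
            simp only [if_neg hyx]
            exact hcol T hTA hTc y hyT hymin
    intro m
    have := Fintype.ofFinite c
    obtain ⟨N, hN⟩ := pre (Fintype.card (Option c) * m + 1)
    refine ⟨N, fun S hS χ => ?_⟩
    obtain ⟨A, hAS, hAc, col, hcol⟩ := hN S hS χ
    have hpig : ∃ o ∈ (Finset.univ : Finset (Option c)), m ≤ (A.filter (fun x => col x = o)).card := by
      refine Finset.exists_le_card_fiber_of_mul_le_card_of_maps_to (fun a _ => Finset.mem_univ _)
        ⟨none, Finset.mem_univ _⟩ ?_
      rw [Finset.card_univ, hAc]
      omega
    obtain ⟨o, -, ho⟩ := hpig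
    obtain ⟨H, hHA, hHc⟩ := Finset.exists_subset_card_eq ho
    have hHA' : H ⊆ A := fun y hy => (Finset.mem_filter.mp (hHA hy)).1
    have key : ∀ T : Finset ℕ, T ⊆ H → T.card = k + 1 → some (χ T) = o := by
      intro T hT hTc
      have hne : T.Nonempty := Finset.card_pos.mp (by omega)
      have h1 := hcol T (hT.trans hHA') hTc (T.min' hne) (Finset.min'_mem T hne)
        (fun y hy => Finset.min'_le T y hy)
      rw [h1]
      exact (Finset.mem_filter.mp (hHA (hT (Finset.min'_mem T hne)))).2
    refine ⟨H, hHA'.trans hAS, hHc, ?_⟩
    cases o with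
    | some col' => exact ⟨col', fun T hT hTc => Option.some_injective _ (key T hT hTc)⟩
    | none =>
      refine ⟨χ ∅, fun T hT hTc => ?_⟩
      exact absurd (key T hT hTc) (by simp)

end Pool.Agent.Work.MP_b2b647_co
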