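import Pool.Agent.Work.MP_b2b647_co.Sem

/-!
Checks that the initial clauses of the refutation hold for every system `Sys V R`.
The variable `x` stands for: all the packed pairs listed in the entry `VI.get x` are adjacent.
-/

namespace Pool.Agent.Work.MP_b2b647_co.Check

/-- `p` is one of the base-`2^40` digits of `e`. -/
def Dig (e p : ℕ) : Prop := ∃ k, e / 1099511627776 ^ k ≠ 0 ∧ p = e / 1099511627776 ^ k % 1099511627776

lemma dig_step {e p : ℕ} : Dig e p ↔ e ≠ 0 ∧ (p = e % 1099511627776 ∨ Dig (e / 1099511627776) p) := by
  constructor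
  · rintro ⟨k, hk, hp⟩
    have he : e ≠ 0 := by
      rintro rfl
      simp at hk
    refine ⟨he, ?_⟩
    cases k with
    | zero => left; simpa using hp
    | succ k =>
      right
      refine ⟨k, ?_, ?_⟩
      · rwa [Nat.div_div_eq_div_mul, ← pow_succ']
      · rwa [Nat.div_div_eq_div_mul, ← pow_succ']
  · rintro ⟨he, h | ⟨k, hk, hp⟩⟩
    · exact ⟨0, by simpa using he, by simpa using h⟩
    · refine ⟨k + 1, ?_, ?_⟩
      · rwa [pow_succ', ← Nat.div_div_eq_div_mul]
      · rwa [pow_succ', ← Nat.div_div_eq_div_mul]

lemma memD_spec {p : ℕ} : ∀ (fuel e : ℕ), memD p fuel e = true → Dig e p := by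
  intro fuel
  induction fuel with
  | zero => intro e h; exact absurd h (by simp [memD])
  | succ f ih =>
    intro e h
    have hdef : memD p (f + 1) e = Bool.rec
      (Bool.rec (memD p f (Nat.div e 1099511627776)) true
        (Nat.beq (Nat.mod e 1099511627776) p))
      false (Nat.beq e 0) := rfl
    rw [hdef] at h
    cases h0 : Nat.beq e 0 with
    | true => rw [h0] at h; exact absurd h (by simp)
    | false =>
      rw [h0] at h
      have he : e ≠ 0 := by
        rintro rfl
        exact absurd h0 (by decide)
      rw [dig_step]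
      refine ⟨he, ?_⟩
      cases h1 : Nat.beq (Nat.mod e 1099511627776) p with
      | true => left; exact (Nat.eq_of_beq_eq_true h1).symm
      | false => rw [h1] at h; right; exact ih _ h

lemma allD_spec {Q : ℕ → Bool} : ∀ (fuel e : ℕ), allD Q fuel e = true →
    ∀ p, Dig e p → Q p = true := by
  intro fuel
  induction fuel with
  | zero => intro e h; exact absurd h (by simp [allD])
  | succ f ih =>
    intro e h p hp
    have hdef : allD Q (f + 1) e = Bool.rec
      (Bool.rec false (allD Q f (Nat.div e 1099511627776)) (Q (Nat.mod e 1099511627776)))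
      true (Nat.beq e 0) := rfl
    rw [hdef] at h
    rw [dig_step] at hp
    cases h0 : Nat.beq e 0 with
    | true => exact absurd (Nat.eq_of_beq_eq_true h0) hp.1
    | false =>
      rw [h0] at h
      cases h1 : Q (Nat.mod e 1099511627776) with
      | false => rw [h1] at h; exact absurd h (by simp)
      | true =>
        rw [h1] at h
        rcases hp.2 with h2 | h2
        · rw [h2]; exact h1
        · exact ih _ h p h2

/-- The assignment belonging to the relation `R`. -/
def Asg (VI : DB) (R : ℕ → ℕ → Prop) (x : ℕ) : Prop := ∀ p, Dig (VI.get x) p → RP R p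

lemma not_holds_digit {α : ℕ → Prop} {c : ℕ} (h : ¬ Holds α c) : ¬ LitTrue α (c % 65536) :=
  fun hl => h ⟨0, by simpa using hl⟩

lemma not_holds_div {α : ℕ → Prop} {c : ℕ} (h : ¬ Holds α c) : ¬ Holds α (c / 65536) := by
  rintro ⟨k, hk⟩
  apply h
  refine ⟨k + 1, ?_⟩
  rw [pow_succ', ← Nat.div_div_eq_div_mul]
  exact hk

lemma inNeg_spec {VI : DB} {R : ℕ → ℕ → Prop} {p : ℕ} :
    ∀ (fuel c : ℕ), ¬ Holds (Asg VI R) c → inNeg VI p fuel c = true → RP R p := by
  intro fuel
  induction fuel with
  | zero => intro c _ h; exact absurd h (by simp [inNeg])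
  | succ f ih =>
    intro c hc h
    have hdef : inNeg VI p (f + 1) c = Bool.rec
      (Bool.rec (inNeg VI p f (Nat.div c 65536))
        (Bool.rec (inNeg VI p f (Nat.div c 65536)) true
          (memD p 4 (DB.get VI (Nat.div (Nat.mod c 65536) 2))))
        (Nat.beq (Nat.mod c 2) 1))
      false (Nat.beq c 0) := rfl
    rw [hdef] at h
    have hc' := not_holds_div hc
    cases h0 : Nat.beq c 0 with
    | true => rw [h0] at h; exact absurd h (by simp)
    | false =>
      rw [h0] at h
      cases h1 : Nat.beq (Nat.mod c 2) 1 with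
      | false => rw [h1] at h; exact ih _ hc' h
      | true =>
        rw [h1] at h
        cases h2 : memD p 4 (DB.get VI (Nat.div (Nat.mod c 65536) 2)) with
        | false => rw [h2] at h; exact ih _ hc' h
        | true =>
          have hm := memD_spec _ _ h2
          have hl := not_holds_digit hc
          have hodd : c % 2 = 1 := Nat.eq_of_beq_eq_true h1
          have hodd' : c % 65536 % 2 = 1 := by omega
          by_contra hcon
          apply hl
          refine ⟨by omega, Or.inr ⟨hodd', ?_⟩⟩
          intro hA
          exact hcon (hA p hm)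

lemma anyPos_spec {VI : DB} {R : ℕ → ℕ → Prop} {Q : ℕ → Bool} (hQ : ∀ p, Q p = true → RP R p) :
    ∀ (fuel c : ℕ), anyPos VI Q fuel c = true → Holds (Asg VI R) c := by
  intro fuel
  induction fuel with
  | zero => intro c h; exact absurd h (by simp [anyPos])
  | succ f ih =>
    intro c h
    by_contra hc
    have hc' := not_holds_div hc
    have hdef : anyPos VI Q (f + 1) c = Bool.rec
      (Bool.rec (anyPos VI Q f (Nat.div c 65536))
        (Bool.rec
          (Bool.rec (anyPos VI Q f (Nat.div c 65536)) true
            (allD Q 4 (DB.get VI (Nat.div (Nat.mod c 65536) 2))))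
          (anyPos VI Q f (Nat.div c 65536)) (Nat.beq (Nat.mod c 65536) 0))
        (Nat.beq (Nat.mod c 2) 0))
      false (Nat.beq c 0) := rfl
    rw [hdef] at h
    cases h0 : Nat.beq c 0 with
    | true => rw [h0] at h; exact absurd h (by simp)
    | false =>
      rw [h0] at h
      cases h1 : Nat.beq (Nat.mod c 2) 0 with
      | false => rw [h1] at h; exact hc' (ih _ h)
      | true =>
        rw [h1] at h
        cases h2 : Nat.beq (Nat.mod c 65536) 0 with
        | true => rw [h2] at h; exact hc' (ih _ h)
        | false =>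
          rw [h2] at h
          cases h3 : allD Q 4 (DB.get VI (Nat.div (Nat.mod c 65536) 2)) with
          | false => rw [h3] at h; exact hc' (ih _ h)
          | true =>
            have hl := not_holds_digit hc
            apply hl
            have hev : c % 2 = 0 := Nat.eq_of_beq_eq_true h1
            have hne : c % 65536 ≠ 0 := by
              intro h4
              have : Nat.beq (Nat.mod c 65536) 0 = true := by
                change Nat.beq (c % 65536) 0 = true
                rw [h4]
                rfl
              rw [this] at h2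
              exact absurd h2 (by simp)
            refine ⟨hne, Or.inl ⟨by omega, ?_⟩⟩
            intro p hp
            exact hQ p (allD_spec _ _ h3 p hp)

/-! ### Forced pairs -/

lemma near_spec {V : Tr} {R : ℕ → ℕ → Prop} (S : Sys V R) (hV : nearCheck V = true)
    (u v : ℕ) (hu : V.mem u = true) (hv : V.mem v = true) (hn : near u v = true) : R u v := by
  have h1 := Tr.every_spec V 1 0 hV u hu
  rw [Nat.zero_add, Nat.one_mul] at h1
  have h2 := Tr.every_spec V 1 0 h1 v hv
  rw [Nat.zero_add, Nat.one_mul] at h2
  rw [hn] at h2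
  obtain ⟨x, y, hx, hy, hR, hs⟩ := S.e2 u v hu hv
  have h3 := Tr.all_spec (m := 2) (by omega) (by omega) V _ 1 0 h2 x y hx (Tr.mem_dle V y hy) hs
  rw [Nat.zero_add, Nat.one_mul] at h3
  have hsub : Nat.sub (Nat.add u v) x = y := by
    change u + v - x = y
    omega
  rw [hsub, hy] at h3
  cases h4 : Nat.beq v x with
  | true =>
    have hvx : v = x := Nat.eq_of_beq_eq_true h4
    subst hvx
    have : u = y := by omega
    subst this
    exact S.symm _ _ hR
  | false =>
    rw [h4] at h3
    have hux : u = x := Nat.eq_of_beq_eq_true h3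
    subst hux
    have : v = y := by omega
    subst this
    exact hR

/-! ### The checks for the four kinds of clauses -/

lemma small_spec {V : Tr} (hV : smallCheck V = true) {u : ℕ} (hu : V.mem u = true) :
    u < 1048576 := by
  have h1 := Tr.every_spec V 1 0 hV u hu
  rw [Nat.zero_add, Nat.one_mul] at h1
  have := Nat.le_of_ble_eq_true h1
  omega

section

variable {VI : DB} {V : Tr} {R : ℕ → ℕ → Prop}

lemma canon_rp (S : Sys V R) (hV : smallCheck V = true) {a b : ℕ} (ha : V.mem a = true)
    (hb : V.mem b = true) : RP R (canon 5 1 a b) ↔ R a b := by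
  have := canon_spec S 5 0 a b (by omega) (small_spec hV ha) (small_spec hV hb)
  rwa [pow_zero] at this

lemma pairOk_spec (S : Sys V R) (h1 : nearCheck V = true) (h2 : smallCheck V = true)
    {c a b : ℕ} (ha : V.mem a = true) (hb : V.mem b = true) (hc : ¬ Holds (Asg VI R) c)
    (h : pairOk VI c a b = true) : R a b := by
  unfold pairOk at h
  cases hn : near a b with
  | true => exact near_spec S h1 a b ha hb hn
  | false =>
    rw [hn] at h
    exact (canon_rp S h2 ha hb).1 (inNeg_spec _ _ hc h)

lemma chkT_spec {c : ℕ} (h : chkT VI c = true) : Holds (Asg VI R) c := by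
  by_contra hc
  exact hc (anyPos_spec (fun p hp => inNeg_spec _ _ hc hp) _ _ h)

lemma chkA3_spec (S : Sys V R) (h1 : nearCheck V = true) (h2 : smallCheck V = true)
    {c u v z a b d : ℕ} (h : chkA3 VI V c u v z a b d = true) : Holds (Asg VI R) c := by
  by_contra hc
  unfold chkA3 at h
  simp only [Bool.and_eq_true, Bool.not_eq_true'] at h
  obtain ⟨⟨⟨hu, hv⟩, hz, ha⟩, ⟨hb, hd⟩, hs, ⟨n1, n2, n3⟩, ⟨p1, p2, p3⟩, p4, p5, p6⟩ := h
  have hsum : u + v + z = a + b + d := Nat.eq_of_beq_eq_true hs
  have hne : ∀ {x y : ℕ}, Nat.beq x y = false → x ≠ y := by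
    intro x y hxy he
    subst he
    rw [Nat.beq_refl] at hxy
    exact absurd hxy (by simp)
  rcases S.u3 u v z a b d hu hv hz ha hb hd (pairOk_spec S h1 h2 hu hv hc p1)
    (pairOk_spec S h1 h2 hu hz hc p2) (pairOk_spec S h1 h2 hv hz hc p3)
    (pairOk_spec S h1 h2 ha hb hc p4) (pairOk_spec S h1 h2 ha hd hc p5)
    (pairOk_spec S h1 h2 hb hd hc p6) hsum with h | h | h
  · exact hne n1 h
  · exact hne n2 h
  · exact hne n3 h

lemma chkA2_spec (S : Sys V R) (h1 : nearCheck V = true) (h2 : smallCheck V = true)
    {c u v a b : ℕ} (h : chkA2 VI V c u v a b = true) : Holds (Asg VI R) c := by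
  by_contra hc
  unfold chkA2 at h
  simp only [Bool.and_eq_true, Bool.not_eq_true'] at h
  obtain ⟨⟨⟨hu, hv⟩, ha, hb⟩, hs, ⟨n1, n2⟩, p1, p2⟩ := h
  have hsum : u + v = a + b := Nat.eq_of_beq_eq_true hs
  have hne : ∀ {x y : ℕ}, Nat.beq x y = false → x ≠ y := by
    intro x y hxy he
    subst he
    rw [Nat.beq_refl] at hxy
    exact absurd hxy (by simp)
  rcases S.u2 u v a b hu hv ha hb (pairOk_spec S h1 h2 hu hv hc p1)
    (pairOk_spec S h1 h2 ha hb hc p2) hsum with h | h
  · exact hne n1 h
  · exact hne n2 h

lemma ble_of_le {a b : ℕ} (h : a ≤ b) : Nat.ble a b = true := Nat.ble_eq_true_of_le h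

lemma chkE2_spec (S : Sys V R) (h2 : smallCheck V = true)
    {c u0 v0 : ℕ} (h : chkE2 VI V c u0 v0 = true) : Holds (Asg VI R) c := by
  unfold chkE2 at h
  cases hu : Tr.mem V u0 with
  | false => rw [hu] at h; exact absurd h (by simp)
  | true =>
    rw [hu] at h
    cases hv : Tr.mem V v0 with
    | false => rw [hv] at h; exact absurd h (by simp)
    | true =>
      rw [hv] at h
      obtain ⟨x, y, hx, hy, hR, hs⟩ := S.e2 u0 v0 hu hv
      have key : ∃ x y, V.mem x = true ∧ V.mem y = true ∧ R x y ∧ x + y = u0 + v0 ∧ x ≤ y := by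
        rcases le_total x y with hxy | hxy
        · exact ⟨x, y, hx, hy, hR, hs, hxy⟩
        · exact ⟨y, x, hy, hx, S.symm _ _ hR, by omega, hxy⟩
      obtain ⟨x, y, hx, hy, hR, hs, hxy⟩ := key
      have h3 := Tr.all_spec (m := 2) (by omega) (by omega) V _ 1 0 h x y hx
        (Tr.mem_dle V y hy) hs
      rw [Nat.zero_add, Nat.one_mul] at h3
      have hsub : Nat.sub (Nat.add u0 v0) x = y := by
        change u0 + v0 - x = y
        omega
      rw [hsub] at h3
      simp only [ble_of_le hxy, hy] at h3
      refine anyPos_spec ?_ _ _ h3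
      intro p hp
      have : p = canon 5 1 x y := Nat.eq_of_beq_eq_true hp
      rw [this]
      exact (canon_rp S h2 hx hy).2 hR

lemma chkE3_spec (S : Sys V R) (h2 : smallCheck V = true)
    {c u0 v0 z0 : ℕ} (h : chkE3 VI V c u0 v0 z0 = true) : Holds (Asg VI R) c := by
  unfold chkE3 at h
  cases hu : Tr.mem V u0 with
  | false => rw [hu] at h; exact absurd h (by simp)
  | true =>
    rw [hu] at h
    cases hv : Tr.mem V v0 with
    | false => rw [hv] at h; exact absurd h (by simp)
    | true =>
      rw [hv] at h
      cases hz : Tr.mem V z0 with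
      | false => rw [hz] at h; exact absurd h (by simp)
      | true =>
        rw [hz] at h
        obtain ⟨x, y, t, hx, hy, ht, r1, r2, r3, hs⟩ := S.e3 u0 v0 z0 hu hv hz
        have key : ∃ x y t, V.mem x = true ∧ V.mem y = true ∧ V.mem t = true ∧ R x y ∧ R x t ∧
            R y t ∧ x + y + t = u0 + v0 + z0 ∧ x ≤ y ∧ y ≤ t := by
          have s1 := S.symm _ _ r1
          have s2 := S.symm _ _ r2
          have s3 := S.symm _ _ r3
          rcases le_total x y with hxy | hxy <;> rcases le_total y t with hyt | hyt <;>
            rcases le_total x t with hxt | hxt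
          · exact ⟨x, y, t, hx, hy, ht, r1, r2, r3, by omega, hxy, hyt⟩
          · exact ⟨x, y, t, hx, hy, ht, r1, r2, r3, by omega, hxy, hyt⟩
          · exact ⟨x, t, y, hx, ht, hy, r2, r1, s3, by omega, hxt, hyt⟩
          · exact ⟨t, x, y, ht, hx, hy, s2, s3, r1, by omega, hxt, hxy⟩
          · exact ⟨y, x, t, hy, hx, ht, s1, r3, r2, by omega, hxy, hxt⟩
          · exact ⟨y, t, x, hy, ht, hx, r3, s1, s2, by omega, hyt, hxt⟩
          · exact ⟨t, y, x, ht, hy, hx, s3, s2, s1, by omega, hyt, hxy⟩
          · exact ⟨t, y, x, ht, hy, hx, s3, s2, s1, by omega, hyt, hxy⟩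
        obtain ⟨x, y, t, hx, hy, ht, r1, r2, r3, hs, hxy, hyt⟩ := key
        have h3 := Tr.all_spec (m := 3) (by omega) (by omega) V _ 1 0 h x (y + t) hx
          (fun i => dle_add i y t (Tr.mem_dle V y hy) (Tr.mem_dle V t ht)) (by
            change x + (y + t) = u0 + v0 + z0
            omega)
        rw [Nat.zero_add, Nat.one_mul] at h3
        have hsub : Nat.sub (Nat.add (Nat.add u0 v0) z0) x = y + t := by
          change u0 + v0 + z0 - x = y + t
          omega
        rw [hsub] at h3
        have h4 := Tr.all_spec (m := 2) (by omega) (by omega) V _ 1 0 h3 y t hy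
          (Tr.mem_dle V t ht) rfl
        rw [Nat.zero_add, Nat.one_mul] at h4
        have hsub2 : Nat.sub (y + t) y = t := by
          change y + t - y = t
          omega
        rw [hsub2] at h4
        simp only [ble_of_le hxy, ble_of_le hyt, ht] at h4
        refine anyPos_spec ?_ _ _ h4
        intro p hp
        unfold isOne3 at hp
        cases hq : Nat.beq p (canon 5 1 x y) with
        | true =>
          have : p = canon 5 1 x y := Nat.eq_of_beq_eq_true hq
          rw [this]
          exact (canon_rp S h2 hx hy).2 r1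
        | false =>
          rw [hq] at hp
          cases hr : Nat.beq p (canon 5 1 x t) with
          | true =>
            have : p = canon 5 1 x t := Nat.eq_of_beq_eq_true hr
            rw [this]
            exact (canon_rp S h2 hx ht).2 r2
          | false =>
            rw [hr] at hp
            have : p = canon 5 1 y t := Nat.eq_of_beq_eq_true hp
            rw [this]
            exact (canon_rp S h2 hy ht).2 r3

end

lemma chkOne_spec {VI : DB} {V : Tr} {R : ℕ → ℕ → Prop} (S : Sys V R)
    (h1 : nearCheck V = true) (h2 : smallCheck V = true) {c w : ℕ}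
    (h : chkOne VI V c w = true) : Holds (Asg VI R) c := by
  unfold chkOne at h
  cases k0 : Nat.beq (Nat.mod w 8) 0 with
  | true => rw [k0] at h; exact chkT_spec h
  | false =>
    rw [k0] at h
    cases k1 : Nat.beq (Nat.mod w 8) 1 with
    | true => rw [k1] at h; exact chkE3_spec S h2 h
    | false =>
      rw [k1] at h
      cases k2 : Nat.beq (Nat.mod w 8) 2 with
      | true => rw [k2] at h; exact chkA3_spec S h1 h2 h
      | false =>
        rw [k2] at h
        cases k3 : Nat.beq (Nat.mod w 8) 3 with
        | true => rw [k3] at h; exact chkE2_spec S h2 h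
        | false =>
          rw [k3] at h
          cases k4 : Nat.beq (Nat.mod w 8) 4 with
          | true => rw [k4] at h; exact chkA2_spec S h1 h2 h
          | false => rw [k4] at h; exact absurd h (by simp)

lemma chkList_spec {VI : DB} {V : Tr} {T : DB} {R : ℕ → ℕ → Prop} (S : Sys V R)
    (h1 : nearCheck V = true) (h2 : smallCheck V = true) : ∀ (ws : List ℕ) (n : ℕ),
    (∀ i, i < n → Holds (Asg VI R) (T.get i)) → chkList VI V T ws n = true →
      ∀ i, i < n + ws.length → Holds (Asg VI R) (T.get i) := by
  intro ws
  induction ws with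
  | nil => intro n hn _ i hi; exact hn i (by simpa using hi)
  | cons w ws ih =>
    intro n hn hv i hi
    have hdef : chkList VI V T (w :: ws) n =
      Bool.rec false (chkList VI V T ws (Nat.succ n)) (chkOne VI V (DB.get T n) w) := rfl
    rw [hdef] at hv
    cases hh : chkOne VI V (DB.get T n) w with
    | false => rw [hh] at hv; exact absurd hv (by simp)
    | true =>
      rw [hh] at hv
      refine ih (n + 1) ?_ hv i (by simp only [List.length_cons] at hi; omega)
      intro j hj
      by_cases hjn : j < n
      · exact hn j hjn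
      · have hj' : j = n := by omega
        subst hj'
        exact chkOne_spec S h1 h2 hh

end Pool.Agent.Work.MP_b2b647_co.Check
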