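import Pool.Agent.Work.MP_b2b647_co.PullDefs
import Pool.Agent.Work.MP_b2b647_co.SemCheck
import Pool.Agent.Work.MP_b2b647_co.Data.Trie

namespace Pool.Agent.Work.MP_b2b647_co

open Finset Check

instance (r : ℕ) (ω : ℕ → Bool × Bool) : Decidable (BaseW r ω) := by
  unfold BaseW
  infer_instance

theorem word_dec : ∀ d0 ∈ [0, 1, 4, 5], ∀ d1 ∈ [0, 1, 4, 5], ∀ d2 ∈ [0, 1, 4, 5],
    ∀ d3 ∈ [0, 1, 4, 5], ∀ d4 ∈ [0, 1, 4, 5],
    (vt.mem (d0 + 16 * d1 + 256 * d2 + 4096 * d3 + 65536 * d4) = true ↔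
      BaseW 5 (wd (d0 + 16 * d1 + 256 * d2 + 4096 * d3 + 65536 * d4))) := by
  decide +kernel

lemma mod16 {c : ℕ} (h : Dle 1 c) (i : ℕ) :
    c / 16 ^ i % 16 = 0 ∨ c / 16 ^ i % 16 = 1 ∨ c / 16 ^ i % 16 = 4 ∨ c / 16 ^ i % 16 = 5 := by
  have h0 := h (2 * i)
  have h1 := h (2 * i + 1)
  rw [pow_succ, ← Nat.div_div_eq_div_mul, pow_mul] at h1
  rw [pow_mul] at h0
  norm_num at h0 h1
  omega

theorem isWordTrie_vt : IsWordTrie vt := by
  have key : ∀ c, c < 1048576 → (∀ i < 5, c / 16 ^ i % 16 = 0 ∨ c / 16 ^ i % 16 = 1 ∨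
      c / 16 ^ i % 16 = 4 ∨ c / 16 ^ i % 16 = 5) → (vt.mem c = true ↔ BaseW 5 (wd c)) := by
    intro c hc hd
    have e : c = c / 16 ^ 0 % 16 + 16 * (c / 16 ^ 1 % 16) + 256 * (c / 16 ^ 2 % 16) +
        4096 * (c / 16 ^ 3 % 16) + 65536 * (c / 16 ^ 4 % 16) := by
      norm_num
      omega
    have := word_dec (c / 16 ^ 0 % 16) (by have := hd 0 (by omega); simpa using this)
      (c / 16 ^ 1 % 16) (by have := hd 1 (by omega); simpa using this)
      (c / 16 ^ 2 % 16) (by have := hd 2 (by omega); simpa using this)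
      (c / 16 ^ 3 % 16) (by have := hd 3 (by omega); simpa using this)
      (c / 16 ^ 4 % 16) (by have := hd 4 (by omega); simpa using this)
    rwa [← e] at this
  intro c
  constructor
  · intro h
    have hc := small_spec small_ok h
    have hd : ∀ i < 5, c / 16 ^ i % 16 = 0 ∨ c / 16 ^ i % 16 = 1 ∨
      c / 16 ^ i % 16 = 4 ∨ c / 16 ^ i % 16 = 5 := fun i _ => mod16 (Tr.mem_dle vt c h) i
    exact ⟨hc, hd, (key c hc hd).1 h⟩
  · rintro ⟨hc, hd, hb⟩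
    exact (key c hc hd).2 hb

end Pool.Agent.Work.MP_b2b647_co
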