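/-!
Definitions of a small checker for clausal refutations with explicit unit-propagation hints, and of
the checks of the initial clauses, written with plain recursors so that the kernel evaluates them
quickly.  The meaning and the soundness proofs are in Check.lean, Sem.lean and SemCheck.lean.
A literal is a natural number `2 * v` (variable `v`) or `2 * v + 1` (its negation), with `v ≥ 1`.
A clause is a natural number whose base-`65536` digits are its literals.
-/

namespace Pool.Agent.Work.MP_b2b647_co.Check

/-- A static binary table of natural numbers; entry `i` is found by the bits of `i`, lowest first. -/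
inductive DB where
  | leaf : Nat → DB
  | node : DB → DB → DB

/-- Look up entry `i`. -/
noncomputable def DB.get (d : DB) : Nat → Nat :=
  DB.rec (fun c _ => c)
    (fun _ _ ihl ihr i =>
      Bool.rec (ihr (Nat.shiftRight i 1)) (ihl (Nat.shiftRight i 1)) (Nat.beq (Nat.land i 1) 0)) d

/-- `findUnit fuel c F acc`: `acc` is the only literal of the clause seen so far that is not in the
bit set `F` (`0` if none).  The result is `0` if all literals are in `F`, the only literal not in
`F`, or `1` for failure. -/
noncomputable def findUnit (fuel : Nat) : Nat → Nat → Nat → Nat :=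
  Nat.rec (fun _ _ _ => 1)
    (fun _ ih c F acc =>
      Bool.rec
        (Bool.rec
          (Bool.rec 1 (ih (Nat.shiftRight c 16) F (Nat.land c 65535))
            (Nat.beq acc 0))
          (ih (Nat.shiftRight c 16) F acc)
          (Nat.beq (Nat.land (Nat.shiftRight F (Nat.land c 65535)) 1) 1))
        acc
        (Nat.beq c 0)) fuel

/-- Add the literals of the clause `c` to the bit set `F`. -/
noncomputable def addLits (fuel : Nat) : Nat → Nat → Nat :=
  Nat.rec (fun _ F => F)
    (fun _ ih c F =>
      Bool.rec
        (ih (Nat.shiftRight c 16) (Nat.lor F (Nat.shiftLeft 1 (Nat.land c 65535))))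
        F
        (Nat.beq c 0)) fuel

/-- Run the hints `h` (base-`65536` digits, clause numbers), for the lemma number `n`. -/
noncomputable def hints (T : DB) (n : Nat) (fuel : Nat) : Nat → Nat → Bool :=
  Nat.rec (fun _ _ => false)
    (fun _ ih h F =>
      Bool.rec false
        ((fun u => Bool.rec
          (Bool.rec
            (ih (Nat.shiftRight h 16) (Nat.lor F (Nat.shiftLeft 1 (Nat.xor u 1))))
            false
            (Nat.beq u 1))
          true
          (Nat.beq u 0)) (findUnit 200 (DB.get T (Nat.land h 65535)) F 0))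
        (Nat.blt (Nat.land h 65535) n)) fuel

/-- Check consecutive lemmas, numbered from `n`, with the listed hints. -/
noncomputable def verify (T : DB) (hs : List Nat) : Nat → Bool :=
  List.rec (fun _ => true)
    (fun h _ ih n =>
      Bool.rec false (ih (Nat.succ n)) (hints T n 1000 h (addLits 200 (DB.get T n) 0))) hs

/-- Binary tries of numbers whose base-4 digits are 0 or 1, lowest digit first. -/
inductive Tr where
  | nil : Tr
  | leaf : Tr
  | node : Tr → Tr → Tr

/-- Membership in a trie. -/
noncomputable def Tr.mem (t : Tr) : Nat → Bool :=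
  Tr.rec (fun _ => false) (fun k => Nat.beq k 0)
    (fun _ _ ihl ihr k =>
      Bool.rec
        (Bool.rec false (ihr (Nat.div k 4)) (Nat.beq (Nat.mod k 4) 1))
        (ihl (Nat.div k 4))
        (Nat.beq (Nat.mod k 4) 0)) t

/-- Check `P` for all members of the trie that can be a summand of `w`, where `w` is a sum of `m`
numbers with base-4 digits 0 or 1. -/
noncomputable def Tr.all (m : Nat) (P : Nat → Bool) (t : Tr) : Nat → Nat → Nat → Bool :=
  Tr.rec (fun _ _ _ => true) (fun _ _ acc => P acc)
    (fun _ _ ihl ihr w p acc =>
      Bool.rec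
        (Bool.rec
          (Bool.rec false (ihr (Nat.div w 4) (Nat.mul p 4) (Nat.add acc p))
            (ihl (Nat.div w 4) (Nat.mul p 4) acc))
          (ihr (Nat.div w 4) (Nat.mul p 4) (Nat.add acc p))
          (Nat.beq (Nat.mod w 4) m))
        (ihl (Nat.div w 4) (Nat.mul p 4) acc)
        (Nat.beq (Nat.mod w 4) 0)) t

/-- Check `P` for all members of the trie. -/
noncomputable def Tr.every (P : Nat → Bool) (t : Tr) : Nat → Nat → Bool :=
  Tr.rec (fun _ _ => true) (fun _ acc => P acc)
    (fun _ _ ihl ihr p acc =>
      Bool.rec false (ihr (Nat.mul p 4) (Nat.add acc p)) (ihl (Nat.mul p 4) acc)) t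

/-- Move the (default) leg at the place `P = 16 ^ i` to the last place. -/
noncomputable def mv (P u : Nat) : Nat :=
  Nat.add (Nat.add (Nat.mod u P) (Nat.mul P (Nat.div u (Nat.mul 16 P)))) 65536

/-- The leg at the place `P` is in the default state. -/
noncomputable def isX (P u : Nat) : Bool := Nat.beq (Nat.mod (Nat.div u P) 16) 1

/-- The canonical form of a pair of words, packed into one number. -/
noncomputable def canon (fuel : Nat) : Nat → Nat → Nat → Nat :=
  Nat.rec (fun _ u v => Bool.rec (Nat.add v (Nat.mul u 1048576)) (Nat.add u (Nat.mul v 1048576))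
      (Nat.ble u v))
    (fun _ ih P u v =>
      Bool.rec (ih (Nat.mul 16 P) u v)
        (Bool.rec (ih (Nat.mul 16 P) u v) (ih P (mv P u) (mv P v)) (isX P v)) (isX P u)) fuel

noncomputable def memD (p : Nat) (fuel : Nat) : Nat → Bool :=
  Nat.rec (fun _ => false)
    (fun _ ih e => Bool.rec
      (Bool.rec (ih (Nat.div e 1099511627776)) true (Nat.beq (Nat.mod e 1099511627776) p))
      false (Nat.beq e 0)) fuel

noncomputable def allD (Q : Nat → Bool) (fuel : Nat) : Nat → Bool :=
  Nat.rec (fun _ => false)
    (fun _ ih e => Bool.rec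
      (Bool.rec false (ih (Nat.div e 1099511627776)) (Q (Nat.mod e 1099511627776)))
      true (Nat.beq e 0)) fuel

noncomputable def inNeg (VI : DB) (p : Nat) (fuel : Nat) : Nat → Bool :=
  Nat.rec (fun _ => false)
    (fun _ ih c => Bool.rec
      (Bool.rec (ih (Nat.div c 65536))
        (Bool.rec (ih (Nat.div c 65536)) true
          (memD p 4 (DB.get VI (Nat.div (Nat.mod c 65536) 2))))
        (Nat.beq (Nat.mod c 2) 1))
      false (Nat.beq c 0)) fuel

noncomputable def anyPos (VI : DB) (Q : Nat → Bool) (fuel : Nat) : Nat → Bool :=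
  Nat.rec (fun _ => false)
    (fun _ ih c => Bool.rec
      (Bool.rec (ih (Nat.div c 65536))
        (Bool.rec
          (Bool.rec (ih (Nat.div c 65536)) true
            (allD Q 4 (DB.get VI (Nat.div (Nat.mod c 65536) 2))))
          (ih (Nat.div c 65536)) (Nat.beq (Nat.mod c 65536) 0))
        (Nat.beq (Nat.mod c 2) 0))
      false (Nat.beq c 0)) fuel

/-- The words differ in at most two places. -/
noncomputable def near (a b : Nat) : Bool :=
  (fun x => (fun y => Nat.beq (Nat.land y (Nat.sub y 1)) 0) (Nat.land x (Nat.sub x 1)))
    (Nat.xor a b)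

noncomputable def nearCheck (V : Tr) : Bool :=
  Tr.every (fun u => Tr.every (fun v =>
    Bool.rec true
      (Tr.all 2 (fun x =>
        Bool.rec true (Bool.rec (Nat.beq u x) true (Nat.beq v x))
          (Tr.mem V (Nat.sub (Nat.add u v) x))) V (Nat.add u v) 1 0)
      (near u v)) V 1 0) V 1 0

/-- The pair `a, b` is adjacent if the clause `c` fails. -/
noncomputable def pairOk (VI : DB) (c a b : Nat) : Bool :=
  Bool.rec (inNeg VI (canon 5 1 a b) 200 c) true (near a b)

noncomputable def isOne3 (q r s p : Nat) : Bool :=
  Bool.rec (Bool.rec (Nat.beq p s) true (Nat.beq p r)) true (Nat.beq p q)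

/-- tautologies (definitions of the variables) -/
noncomputable def chkT (VI : DB) (c : Nat) : Bool :=
  anyPos VI (fun p => inNeg VI p 200 c) 200 c

/-- existence in a fibre of degree three -/
noncomputable def chkE3 (VI : DB) (V : Tr) (c u0 v0 z0 : Nat) : Bool :=
  Bool.rec false
    (Bool.rec false
      (Bool.rec false
        ((fun w => Tr.all 3 (fun u => Tr.all 2 (fun v =>
          (fun z => Bool.rec true
            (Bool.rec true
              (Bool.rec true
                (anyPos VI (isOne3 (canon 5 1 u v) (canon 5 1 u z) (canon 5 1 v z)) 200 c)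
                (Tr.mem V z))
              (Nat.ble v z))
            (Nat.ble u v)) (Nat.sub (Nat.sub w u) v)) V (Nat.sub w u) 1 0) V w 1 0)
          (Nat.add (Nat.add u0 v0) z0))
        (Tr.mem V z0)) (Tr.mem V v0)) (Tr.mem V u0)

/-- existence in a fibre of degree two -/
noncomputable def chkE2 (VI : DB) (V : Tr) (c u0 v0 : Nat) : Bool :=
  Bool.rec false
    (Bool.rec false
      ((fun w => Tr.all 2 (fun u =>
          (fun z => Bool.rec true
            (Bool.rec true
              (anyPos VI (fun p => Nat.beq p (canon 5 1 u z)) 200 c)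
              (Tr.mem V z))
            (Nat.ble u z)) (Nat.sub w u)) V w 1 0)
          (Nat.add u0 v0))
      (Tr.mem V v0)) (Tr.mem V u0)

/-- uniqueness in a fibre of degree three -/
noncomputable def chkA3 (VI : DB) (V : Tr) (c u v z a b d : Nat) : Bool :=
  and (and (and (Tr.mem V u) (Tr.mem V v)) (and (Tr.mem V z) (Tr.mem V a)))
    (and (and (Tr.mem V b) (Tr.mem V d))
      (and (Nat.beq (Nat.add (Nat.add u v) z) (Nat.add (Nat.add a b) d))
        (and (and (not (Nat.beq u a)) (and (not (Nat.beq u b)) (not (Nat.beq u d))))
          (and (and (pairOk VI c u v) (and (pairOk VI c u z) (pairOk VI c v z)))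
            (and (pairOk VI c a b) (and (pairOk VI c a d) (pairOk VI c b d)))))))

/-- uniqueness in a fibre of degree two -/
noncomputable def chkA2 (VI : DB) (V : Tr) (c u v a b : Nat) : Bool :=
  and (and (and (Tr.mem V u) (Tr.mem V v)) (and (Tr.mem V a) (Tr.mem V b)))
    (and (Nat.beq (Nat.add u v) (Nat.add a b))
      (and (and (not (Nat.beq u a)) (not (Nat.beq u b)))
        (and (pairOk VI c u v) (pairOk VI c a b))))

/-- All members of the trie are below `2 ^ 20`. -/
noncomputable def smallCheck (V : Tr) : Bool := Tr.every (fun u => Nat.ble u 1048575) V 1 0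

/-- the `k`-th base-`2^20` digit -/
noncomputable def dg (w k : Nat) : Nat := Nat.mod (Nat.div w (Nat.pow 1048576 k)) 1048576

/-- Check one initial clause `c` with the packed witness `w`: the kind is `w % 8`. -/
noncomputable def chkOne (VI : DB) (V : Tr) (c w : Nat) : Bool :=
  Bool.rec
    (Bool.rec
      (Bool.rec
        (Bool.rec
          (Bool.rec false
            (chkA2 VI V c (dg (Nat.div w 8) 0) (dg (Nat.div w 8) 1) (dg (Nat.div w 8) 2)
              (dg (Nat.div w 8) 3))
            (Nat.beq (Nat.mod w 8) 4))
          (chkE2 VI V c (dg (Nat.div w 8) 0) (dg (Nat.div w 8) 1))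
          (Nat.beq (Nat.mod w 8) 3))
        (chkA3 VI V c (dg (Nat.div w 8) 0) (dg (Nat.div w 8) 1) (dg (Nat.div w 8) 2)
          (dg (Nat.div w 8) 3) (dg (Nat.div w 8) 4) (dg (Nat.div w 8) 5))
        (Nat.beq (Nat.mod w 8) 2))
      (chkE3 VI V c (dg (Nat.div w 8) 0) (dg (Nat.div w 8) 1) (dg (Nat.div w 8) 2))
      (Nat.beq (Nat.mod w 8) 1))
    (chkT VI c)
    (Nat.beq (Nat.mod w 8) 0)

/-- Check consecutive initial clauses, numbered from `n`, with the listed witnesses. -/
noncomputable def chkList (VI : DB) (V : Tr) (T : DB) (ws : List Nat) : Nat → Bool :=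
  List.rec (fun _ => true)
    (fun w _ ih n => Bool.rec false (ih (Nat.succ n)) (chkOne VI V (DB.get T n) w)) ws

end Pool.Agent.Work.MP_b2b647_co.Check
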