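import Mathlib

namespace Pool.Agent.Work.MP_b2b647_co

open Finset

/-- `f` is an integer polymatroid on the ground set `Fin n`. -/
structure IsIntegerPolymatroid {n : ℕ} (f : Finset (Fin n) → ℕ) : Prop where
  empty : f ∅ = 0
  mono : ∀ S T : Finset (Fin n), S ⊆ T → f S ≤ f T
  submodular : ∀ S T : Finset (Fin n), f (S ∪ T) + f (S ∩ T) ≤ f S + f T

/-- The base polytope of `f`. -/
def basePolytope {n : ℕ} (f : Finset (Fin n) → ℕ) : Set (Fin n → ℝ) :=
  {x | (∀ S : Finset (Fin n), ∑ i ∈ S, x i ≤ (f S : ℝ)) ∧ ∑ i, x i = (f univ : ℝ)}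

/-- The real vector of an integer vector. -/
def toReal {n : ℕ} (z : Fin n → ℤ) : Fin n → ℝ := fun i => (z i : ℝ)

/-- `K` is a unimodular flag triangulation of `P`: a finite geometric simplicial complex with
vertices among the lattice points of `P`, with union `P`, such that the vertices of every maximal
simplex generate the lattice of integer points of the affine hull of `P` by integer affine
combinations, and such that every nonempty finite set of pairwise joined vertices is a face. -/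
structure IsUnimodularFlagTriangulation {n : ℕ} (P : Set (Fin n → ℝ))
    (K : Geometry.SimplicialComplex ℝ (Fin n → ℝ)) : Prop where
  finite : K.faces.Finite
  lattice : ∀ v ∈ K.vertices, ∃ z : Fin n → ℤ, v = toReal z
  space_eq : K.space = P
  unimodular : ∀ s ∈ K.facets, ∀ z : Fin n → ℤ, toReal z ∈ affineSpan ℝ P →
    ∃ c : (Fin n → ℝ) → ℤ, ∑ v ∈ s, c v = 1 ∧ ∑ v ∈ s, (c v : ℝ) • v = toReal z
  flag : ∀ s : Finset (Fin n → ℝ), s.Nonempty →
    (∀ v ∈ s, ∀ w ∈ s, ({v, w} : Finset (Fin n → ℝ)) ∈ K.faces) → s ∈ K.faces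

/-- Fibre lemma, to be proved in Geo.lean:
theorem exists_clique {n : ℕ} {P} {K} (hP : Convex ℝ P) (hK : IsUnimodularFlagTriangulation P K)
  (w : Multiset (Fin n → ℤ)) (hw0 : 0 < w.card) (hw : ∀ z ∈ w, toReal z ∈ P) :
  ∃ m : Multiset (Fin n → ℤ), m.card = w.card ∧ m.sum = w.sum ∧ (∀ z ∈ m, toReal z ∈ P) ∧
    ∀ x ∈ m, ∀ y ∈ m, ({toReal x, toReal y} : Finset (Fin n → ℝ)) ∈ K.faces
theorem unique_clique {n : ℕ} {P} {K} (hK : IsUnimodularFlagTriangulation P K)
  (m m' : Multiset (Fin n → ℤ)) (hc : m.card = m'.card) (hs : m.sum = m'.sum)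
  (hm : ∀ x ∈ m, ∀ y ∈ m, ({toReal x, toReal y} : Finset (Fin n → ℝ)) ∈ K.faces)
  (hm' : ∀ x ∈ m', ∀ y ∈ m', ({toReal x, toReal y} : Finset (Fin n → ℝ)) ∈ K.faces) : m = m'
-/
theorem defs_ok : True := trivial

end Pool.Agent.Work.MP_b2b647_co
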