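import Pool.Agent.Work.MP_b2b647_co.Defs

namespace Pool.Agent.Work.MP_b2b647_co

open Finset

lemma toReal_injective {n : ℕ} : Function.Injective (toReal : (Fin n → ℤ) → (Fin n → ℝ)) := by
  intro a b h
  funext i
  have := congrFun h i
  simpa [toReal] using this

lemma toReal_add {n : ℕ} (a b : Fin n → ℤ) : toReal (a + b) = toReal a + toReal b := by
  funext i; simp [toReal]

lemma toReal_zero {n : ℕ} : toReal (0 : Fin n → ℤ) = 0 := by
  funext i; simp [toReal]

/-- `toReal` as an additive homomorphism. -/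
def toRealHom (n : ℕ) : (Fin n → ℤ) →+ (Fin n → ℝ) where
  toFun := toReal
  map_zero' := toReal_zero
  map_add' := toReal_add

@[simp] lemma toRealHom_apply {n : ℕ} (z : Fin n → ℤ) : toRealHom n z = toReal z := rfl

lemma toReal_multiset_sum {n : ℕ} (w : Multiset (Fin n → ℤ)) :
    toReal w.sum = (w.map toReal).sum := by
  have := map_multiset_sum (toRealHom n) w
  simpa using this

/-- The barycentre of a nonempty multiset lies in the convex hull of its support. -/
lemma bary_mem {n : ℕ} (M : Multiset (Fin n → ℝ)) {P : Set (Fin n → ℝ)} (hP : Convex ℝ P)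
    (h0 : 0 < M.card) (hM : ∀ v ∈ M, v ∈ P) : ((M.card : ℝ)⁻¹ • M.sum) ∈ P := by
  classical
  have hk : (0 : ℝ) < (M.card : ℝ) := by exact_mod_cast h0
  have h1 : ∑ v ∈ M.toFinset, ((M.count v : ℝ) / (M.card : ℝ)) = 1 := by
    rw [← Finset.sum_div, ← Nat.cast_sum, Multiset.toFinset_sum_count_eq]
    exact div_self hk.ne'
  have h2 := hP.sum_mem (t := M.toFinset) (w := fun v => (M.count v : ℝ) / (M.card : ℝ))
    (z := fun v => v) (fun v _ => by positivity) h1 (fun v hv => hM v (Multiset.mem_toFinset.1 hv))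
  have h3 : ∑ v ∈ M.toFinset, ((M.count v : ℝ) / (M.card : ℝ)) • v = (M.card : ℝ)⁻¹ • M.sum := by
    rw [Finset.sum_multiset_count M, Finset.smul_sum]
    refine Finset.sum_congr rfl fun v _ => ?_
    rw [← Nat.cast_smul_eq_nsmul ℝ (M.count v) v, smul_smul, div_eq_inv_mul]
  rw [← h3]
  exact h2

/-- Two multisets supported on faces with the same cardinality and the same sum coincide. -/
lemma multiset_eq_of_faces {n : ℕ} (K : Geometry.SimplicialComplex ℝ (Fin n → ℝ))
    (M M' : Multiset (Fin n → ℝ)) [DecidableEq (Fin n → ℝ)] (hM : M.toFinset ∈ K.faces)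
    (hM' : M'.toFinset ∈ K.faces)
    (h0 : 0 < M.card) (hc : M.card = M'.card) (hs : M.sum = M'.sum) : M = M' := by
  classical
  have hk : (0 : ℝ) < (M.card : ℝ) := by exact_mod_cast h0
  have hx : ((M.card : ℝ)⁻¹ • M.sum) ∈ convexHull ℝ (M.toFinset : Set (Fin n → ℝ)) :=
    bary_mem M (convex_convexHull ℝ _) h0 fun v hv =>
      subset_convexHull ℝ _ (by simpa using hv)
  have hx' : ((M.card : ℝ)⁻¹ • M.sum) ∈ convexHull ℝ (M'.toFinset : Set (Fin n → ℝ)) := by
    rw [hc, hs]
    exact bary_mem M' (convex_convexHull ℝ _) (hc ▸ h0) fun v hv =>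
      subset_convexHull ℝ _ (by simpa using hv)
  have hI := K.inter_subset_convexHull hM hM' ⟨hx, hx'⟩
  rw [← Finset.coe_inter, Finset.mem_convexHull'] at hI
  obtain ⟨b, _, hb1, hb2⟩ := hI
  have key : ∀ N : Multiset (Fin n → ℝ), N.toFinset ∈ K.faces → N.card = M.card → N.sum = M.sum →
      M.toFinset ∩ M'.toFinset ⊆ N.toFinset → ∀ v ∈ N.toFinset,
      (N.count v : ℝ) / (M.card : ℝ) = if v ∈ M.toFinset ∩ M'.toFinset then b v else 0 := by
    intro N hN hNc hNs hsub
    refine (K.indep hN).eq_of_sum_eq_sum_subtype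
      (w₁ := fun v => (N.count v : ℝ) / (M.card : ℝ))
      (w₂ := fun v => if v ∈ M.toFinset ∩ M'.toFinset then b v else 0) ?_ ?_
    · have e1 : ∑ v ∈ N.toFinset, ((N.count v : ℝ) / (M.card : ℝ)) = 1 := by
        rw [← Finset.sum_div, ← Nat.cast_sum, Multiset.toFinset_sum_count_eq, hNc]
        exact div_self hk.ne'
      rw [e1, Finset.sum_ite_mem, Finset.inter_eq_right.2 hsub, hb1]
    · have e1 : ∑ v ∈ N.toFinset, ((N.count v : ℝ) / (M.card : ℝ)) • v
          = (M.card : ℝ)⁻¹ • M.sum := by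
        rw [← hNs, Finset.sum_multiset_count N, Finset.smul_sum]
        refine Finset.sum_congr rfl fun v _ => ?_
        rw [← Nat.cast_smul_eq_nsmul ℝ (N.count v) v, smul_smul, div_eq_inv_mul]
      have e2 : ∑ v ∈ N.toFinset, (if v ∈ M.toFinset ∩ M'.toFinset then b v else 0) • v
          = (M.card : ℝ)⁻¹ • M.sum := by
        rw [← hb2]
        simp only [ite_smul, zero_smul]
        rw [Finset.sum_ite_mem, Finset.inter_eq_right.2 hsub]
      rw [e1, e2]
  have kM := key M hM rfl rfl Finset.inter_subset_left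
  have kM' := key M' hM' hc.symm hs.symm Finset.inter_subset_right
  have cpos : ∀ N : Multiset (Fin n → ℝ), ∀ v ∈ N.toFinset,
      (0 : ℝ) < (N.count v : ℝ) / (M.card : ℝ) := by
    intro N v hv
    have : 0 < N.count v := Multiset.count_pos.2 (Multiset.mem_toFinset.1 hv)
    have : (0 : ℝ) < (N.count v : ℝ) := by exact_mod_cast this
    positivity
  have inI : ∀ v, v ∈ M.toFinset → v ∈ M.toFinset ∩ M'.toFinset := by
    intro v hv
    by_contra hn
    have h1 := kM v hv
    rw [if_neg hn] at h1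
    exact (cpos M v hv).ne' h1
  have inI' : ∀ v, v ∈ M'.toFinset → v ∈ M.toFinset ∩ M'.toFinset := by
    intro v hv
    by_contra hn
    have h1 := kM' v hv
    rw [if_neg hn] at h1
    exact (cpos M' v hv).ne' h1
  ext v
  by_cases hv : v ∈ M.toFinset
  · have hI := inI v hv
    have hv' : v ∈ M'.toFinset := (Finset.mem_inter.1 hI).2
    have h1 := kM v hv
    have h2 := kM' v hv'
    rw [← h2] at h1
    have h3 := (div_left_inj' hk.ne').1 h1
    exact_mod_cast h3
  · have hv' : v ∉ M'.toFinset := fun h => hv (Finset.mem_inter.1 (inI' v h)).1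
    rw [Multiset.mem_toFinset] at hv hv'
    rw [Multiset.count_eq_zero_of_notMem hv, Multiset.count_eq_zero_of_notMem hv']

theorem unique_clique {n : ℕ} {P : Set (Fin n → ℝ)} {K : Geometry.SimplicialComplex ℝ (Fin n → ℝ)}
    (hK : IsUnimodularFlagTriangulation P K)
    (m m' : Multiset (Fin n → ℤ)) (hc : m.card = m'.card) (hs : m.sum = m'.sum)
    (hm : ∀ x ∈ m, ∀ y ∈ m, ({toReal x, toReal y} : Finset (Fin n → ℝ)) ∈ K.faces)
    (hm' : ∀ x ∈ m', ∀ y ∈ m', ({toReal x, toReal y} : Finset (Fin n → ℝ)) ∈ K.faces) :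
    m = m' := by
  classical
  rcases Nat.eq_zero_or_pos m.card with h0 | h0
  · have h1 : m'.card = 0 := hc ▸ h0
    rw [Multiset.card_eq_zero] at h0 h1
    rw [h0, h1]
  · have face : ∀ N : Multiset (Fin n → ℤ), 0 < N.card →
        (∀ x ∈ N, ∀ y ∈ N, ({toReal x, toReal y} : Finset (Fin n → ℝ)) ∈ K.faces) →
        (N.map toReal).toFinset ∈ K.faces := by
      intro N hN hN2
      refine hK.flag _ ?_ ?_
      · obtain ⟨x, hx⟩ := Multiset.card_pos_iff_exists_mem.1 hN
        exact ⟨toReal x, by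
          rw [Multiset.mem_toFinset]; exact Multiset.mem_map_of_mem _ hx⟩
      · intro v hv u hu
        rw [Multiset.mem_toFinset, Multiset.mem_map] at hv hu
        obtain ⟨x, hx, rfl⟩ := hv
        obtain ⟨y, hy, rfl⟩ := hu
        convert hN2 x hx y hy
    have := multiset_eq_of_faces K (m.map toReal) (m'.map toReal) (face m h0 hm)
      (face m' (hc ▸ h0) hm') (by simpa using h0) (by simpa using hc)
      (by rw [← toReal_multiset_sum, ← toReal_multiset_sum, hs])
    exact Multiset.map_injective toReal_injective this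

theorem exists_clique {n : ℕ} {P : Set (Fin n → ℝ)} {K : Geometry.SimplicialComplex ℝ (Fin n → ℝ)}
    (hP : Convex ℝ P) (hK : IsUnimodularFlagTriangulation P K)
    (w : Multiset (Fin n → ℤ)) (hw0 : 0 < w.card) (hw : ∀ z ∈ w, toReal z ∈ P) :
    ∃ m : Multiset (Fin n → ℤ), m.card = w.card ∧ m.sum = w.sum ∧ (∀ z ∈ m, toReal z ∈ P) ∧
      ∀ x ∈ m, ∀ y ∈ m, ({toReal x, toReal y} : Finset (Fin n → ℝ)) ∈ K.faces := by
  classical
  have hk : (0 : ℝ) < (w.card : ℝ) := by exact_mod_cast hw0
  -- the barycentre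
  have hx : ((w.card : ℝ)⁻¹ • toReal w.sum) ∈ P := by
    have := bary_mem (w.map toReal) hP (by simpa using hw0) (by
      intro v hv
      obtain ⟨z, hz, rfl⟩ := Multiset.mem_map.1 hv
      exact hw z hz)
    rwa [Multiset.card_map, ← toReal_multiset_sum] at this
  rw [← hK.space_eq, Geometry.SimplicialComplex.mem_space_iff] at hx
  obtain ⟨s, hs, hxs⟩ := hx
  -- a facet containing it
  obtain ⟨t, hst, ht⟩ := hK.finite.exists_le_maximal hs
  have htf : t ∈ K.facets := by
    refine ⟨ht.prop, fun u hu htu => ?_⟩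
    exact le_antisymm htu (ht.le_of_ge hu htu)
  have hts : t ∈ K.faces := htf.1
  have hxt : ((w.card : ℝ)⁻¹ • toReal w.sum) ∈ convexHull ℝ (t : Set (Fin n → ℝ)) :=
    convexHull_mono (by exact_mod_cast hst) hxs
  rw [Finset.mem_convexHull'] at hxt
  obtain ⟨a, ha0, ha1, ha2⟩ := hxt
  -- integer coordinates
  have hc : ∀ z, z ∈ w → ∃ c : (Fin n → ℝ) → ℤ, ∑ v ∈ t, c v = 1 ∧
      ∑ v ∈ t, (c v : ℝ) • v = toReal z := fun z hz =>
    hK.unimodular t htf z (subset_affineSpan ℝ P (hw z hz))
  choose! c hc1 hc2 using hc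
  set C : (Fin n → ℝ) → ℤ := fun v => ∑ z ∈ w.toFinset, (w.count z : ℤ) * c z v with hC
  have hCsum : ∑ v ∈ t, C v = w.card := by
    rw [hC]
    simp only
    rw [Finset.sum_comm]
    have : ∀ z ∈ w.toFinset, ∑ v ∈ t, (w.count z : ℤ) * c z v = (w.count z : ℤ) := by
      intro z hz
      rw [← Finset.mul_sum, hc1 z (Multiset.mem_toFinset.1 hz), mul_one]
    rw [Finset.sum_congr rfl this, ← Nat.cast_sum, Multiset.toFinset_sum_count_eq]
  have hCvec : ∑ v ∈ t, (C v : ℝ) • v = toReal w.sum := by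
    have e1 : ∀ v ∈ t, (C v : ℝ) • v = ∑ z ∈ w.toFinset, (w.count z : ℝ) • ((c z v : ℝ) • v) := by
      intro v _
      rw [hC]
      simp only
      push_cast
      rw [Finset.sum_smul]
      exact Finset.sum_congr rfl fun z _ => by rw [smul_smul]
    rw [Finset.sum_congr rfl e1, Finset.sum_comm]
    have e2 : ∀ z ∈ w.toFinset, ∑ v ∈ t, (w.count z : ℝ) • ((c z v : ℝ) • v)
        = w.count z • toReal z := by
      intro z hz
      rw [← Finset.smul_sum, hc2 z (Multiset.mem_toFinset.1 hz), Nat.cast_smul_eq_nsmul]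
    rw [Finset.sum_congr rfl e2]
    have e3 : toReal w.sum = ∑ z ∈ w.toFinset, w.count z • toReal z := by
      have h := Finset.sum_multiset_count w
      have h2 := congrArg (toRealHom n) h
      rw [map_sum] at h2
      rw [toRealHom_apply] at h2
      rw [h2]
      exact Finset.sum_congr rfl fun z _ => by rw [map_nsmul, toRealHom_apply]
    rw [e3]
  have hCa : ∀ v ∈ t, (C v : ℝ) = (w.card : ℝ) * a v := by
    refine (K.indep hts).eq_of_sum_eq_sum_subtype
      (w₁ := fun v => (C v : ℝ)) (w₂ := fun v => (w.card : ℝ) * a v) ?_ ?_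
    · rw [← Finset.mul_sum, ha1, mul_one]
      exact_mod_cast hCsum
    · rw [hCvec]
      have : ∑ v ∈ t, ((w.card : ℝ) * a v) • v = (w.card : ℝ) • ∑ v ∈ t, a v • v := by
        rw [Finset.smul_sum]
        exact Finset.sum_congr rfl fun v _ => by rw [smul_smul]
      rw [this, ha2, smul_smul, mul_inv_cancel₀ hk.ne', one_smul]
  have hC0 : ∀ v ∈ t, 0 ≤ C v := by
    intro v hv
    have h1 := hCa v hv
    have h2 : (0 : ℝ) ≤ (C v : ℝ) := by
      rw [h1]; exact mul_nonneg hk.le (ha0 v hv)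
    exact_mod_cast h2
  -- lattice points of the vertices
  have hg : ∀ v, v ∈ t → ∃ z : Fin n → ℤ, v = toReal z := fun v hv =>
    hK.lattice v (K.down_closed hts (Finset.singleton_subset_iff.2 hv)
      (Finset.singleton_nonempty v))
  choose! g hg using hg
  have htoNat : ∀ v ∈ t, (((C v).toNat : ℕ) : ℝ) = (C v : ℝ) := by
    intro v hv
    have : (((C v).toNat : ℕ) : ℤ) = C v := Int.toNat_of_nonneg (hC0 v hv)
    exact_mod_cast congrArg (fun x : ℤ => (x : ℝ)) this
  have hmem : ∀ z ∈ ∑ v ∈ t, (C v).toNat • ({g v} : Multiset (Fin n → ℤ)),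
      toReal z ∈ t := by
    intro z hz
    rw [Multiset.mem_sum] at hz
    obtain ⟨v, hv, hz⟩ := hz
    have := Multiset.mem_of_mem_nsmul hz
    rw [Multiset.mem_singleton] at this
    rw [this, ← hg v hv]
    exact hv
  refine ⟨∑ v ∈ t, (C v).toNat • ({g v} : Multiset (Fin n → ℤ)), ?_, ?_, ?_, ?_⟩
  · rw [Multiset.card_sum]
    simp only [Multiset.card_nsmul, Multiset.card_singleton, mul_one]
    have : ((∑ v ∈ t, (C v).toNat : ℕ) : ℤ) = (w.card : ℤ) := by
      rw [← hCsum]
      push_cast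
      exact Finset.sum_congr rfl fun v hv => Int.toNat_of_nonneg (hC0 v hv)
    exact_mod_cast this
  · apply toReal_injective
    have e1 : (∑ v ∈ t, (C v).toNat • ({g v} : Multiset (Fin n → ℤ))).sum
        = ∑ v ∈ t, (C v).toNat • g v := by
      have h := map_sum (Multiset.sumAddMonoidHom : Multiset (Fin n → ℤ) →+ (Fin n → ℤ))
        (fun v => (C v).toNat • ({g v} : Multiset (Fin n → ℤ))) t
      simp only [Multiset.coe_sumAddMonoidHom] at h
      rw [h]
      exact Finset.sum_congr rfl fun v _ => by rw [Multiset.sum_nsmul, Multiset.sum_singleton]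
    rw [e1, ← hCvec]
    have e2 : toReal (∑ v ∈ t, (C v).toNat • g v) = ∑ v ∈ t, (C v).toNat • toReal (g v) := by
      have h := map_sum (toRealHom n) (fun v => (C v).toNat • g v) t
      rw [toRealHom_apply] at h
      rw [h]
      exact Finset.sum_congr rfl fun z _ => by rw [map_nsmul, toRealHom_apply]
    rw [e2]
    refine Finset.sum_congr rfl fun v hv => ?_
    rw [← hg v hv, ← Nat.cast_smul_eq_nsmul ℝ, htoNat v hv]
  · intro z hz
    have h1 := hmem z hz
    rw [← hK.space_eq]
    exact K.subset_space hts (by exact_mod_cast h1)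
  · intro x hx y hy
    refine K.down_closed hts ?_ ⟨toReal x, by simp⟩
    intro v hv
    rw [Finset.mem_insert, Finset.mem_singleton] at hv
    rcases hv with rfl | rfl
    · exact hmem x hx
    · exact hmem y hy

end Pool.Agent.Work.MP_b2b647_co
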