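import Mathlib

namespace Pool.Agent.Work.MP_b2b647_co

open Finset

/-! ### Ranks in a finite set -/

/-- The number of elements of `T` below `a`. -/
def rk (T : Finset ℕ) (a : ℕ) : ℕ := #{b ∈ T | b < a}

lemma rk_lt {T : Finset ℕ} {a : ℕ} (ha : a ∈ T) : rk T a < T.card := by
  apply Finset.card_lt_card
  exact Finset.filter_ssubset.2 ⟨a, ha, lt_irrefl a⟩

lemma rk_lt_rk {T : Finset ℕ} {a b : ℕ} (ha : a ∈ T) (h : a < b) : rk T a < rk T b := by
  apply Finset.card_lt_card
  refine ⟨fun x hx => ?_, fun hs => ?_⟩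
  · have hx' := Finset.mem_filter.1 hx
    exact Finset.mem_filter.2 ⟨hx'.1, hx'.2.trans h⟩
  · have := hs (Finset.mem_filter.2 ⟨ha, h⟩)
    exact lt_irrefl _ (Finset.mem_filter.1 this).2

lemma rk_injOn (T : Finset ℕ) : Set.InjOn (rk T) (T : Set ℕ) := by
  intro a ha b hb h
  rcases lt_trichotomy a b with h1 | h1 | h1
  · exact absurd h (rk_lt_rk (by simpa using ha) h1).ne
  · exact h1
  · exact absurd h (rk_lt_rk (by simpa using hb) h1).ne'

lemma image_rk (T : Finset ℕ) : T.image (rk T) = range T.card := by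
  apply Finset.eq_of_subset_of_card_le
  · intro x hx
    obtain ⟨a, ha, rfl⟩ := Finset.mem_image.1 hx
    exact Finset.mem_range.2 (rk_lt ha)
  · rw [Finset.card_range, Finset.card_image_of_injOn (rk_injOn T)]

lemma exists_rk {T : Finset ℕ} {k : ℕ} (hk : k < T.card) : ∃ a ∈ T, rk T a = k := by
  have h := Finset.mem_range.2 hk
  rw [← image_rk T] at h
  exact Finset.mem_image.1 h

lemma sum_rk {M : Type*} [AddCommMonoid M] (T : Finset ℕ) (f : ℕ → M) :
    ∑ a ∈ T, f (rk T a) = ∑ i ∈ range T.card, f i := by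
  rw [← image_rk T, Finset.sum_image (fun a ha b hb h => rk_injOn T ha hb h)]

lemma rk_erase_lt {H : Finset ℕ} {p x : ℕ} (hp : p ∈ H) (h : p < x) :
    rk (H.erase p) x = rk H x - 1 := by
  unfold rk
  rw [Finset.filter_erase, Finset.card_erase_of_mem (Finset.mem_filter.2 ⟨hp, h⟩)]

lemma rk_erase_ge {H : Finset ℕ} {p x : ℕ} (h : ¬ p < x) : rk (H.erase p) x = rk H x := by
  unfold rk
  rw [Finset.filter_erase]
  congr 1
  exact Finset.erase_eq_of_notMem (fun hm => h (Finset.mem_filter.1 hm).2)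

lemma rk_lt_iff {H : Finset ℕ} {x y : ℕ} (hx : x ∈ H) (hy : y ∈ H) : rk H x < rk H y ↔ x < y := by
  constructor
  · intro h
    by_contra hn
    rcases lt_or_eq_of_le (not_lt.1 hn) with h1 | h1
    · exact absurd (rk_lt_rk hy h1) (by omega)
    · rw [h1] at h; exact lt_irrefl _ h
  · exact rk_lt_rk hx

end Pool.Agent.Work.MP_b2b647_co
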