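import Pool.Agent.Work.MP_b2b647_co.PullDefs
import Pool.Agent.Work.MP_b2b647_co.PullRk

namespace Pool.Agent.Work.MP_b2b647_co

open Finset Check

lemma cnt_emb {N : ℕ} {T : Finset ℕ} (hT : T ⊆ range N) (hc : T.card = 5)
    (w : ℕ → Bool × Bool) {s : Bool × Bool} (hs : s ≠ (true, false)) :
    cnt N (emb T w) s = cnt 5 w s := by
  unfold cnt
  have e1 : (range N).filter (fun i => emb T w i = s) = T.filter (fun a => w (rk T a) = s) := by
    ext a
    simp only [Finset.mem_filter]
    constructor
    · rintro ⟨_, h2⟩
      by_cases ha : a ∈ T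
      · refine ⟨ha, ?_⟩
        unfold emb at h2
        rwa [if_pos ha] at h2
      · unfold emb at h2
        rw [if_neg ha] at h2
        exact absurd h2.symm hs
    · rintro ⟨h1, h2⟩
      refine ⟨hT h1, ?_⟩
      unfold emb
      rw [if_pos h1]
      exact h2
  rw [e1]
  have e2 : (T.filter (fun a => w (rk T a) = s)).image (rk T) =
      (range 5).filter (fun i => w i = s) := by
    rw [← hc, ← image_rk T, Finset.filter_image]
  rw [← e2, Finset.card_image_of_injOn]
  intro x hx y hy h
  simp only [Finset.coe_filter, Set.mem_ofPred_eq] at hx hy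
  exact rk_injOn T (by simpa using hx.1) (by simpa using hy.1) h

theorem baseW_emb {N : ℕ} {T : Finset ℕ} (hT : T ⊆ range N) (hc : T.card = 5)
    (w : ℕ → Bool × Bool) : BaseW N (emb T w) ↔ BaseW 5 w := by
  unfold BaseW
  rw [cnt_emb hT hc w (s := (true, true)) (by decide),
    cnt_emb hT hc w (s := (false, false)) (by decide),
    cnt_emb hT hc w (s := (false, true)) (by decide)]

end Pool.Agent.Work.MP_b2b647_co
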