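import Pool.Agent.Work.MP_b2b647_co.PullDefs
import Pool.Agent.Work.MP_b2b647_co.PullRk

namespace Pool.Agent.Work.MP_b2b647_co

open Finset Check

lemma wd_congr {c c' k k' : ℕ} (h : c / 16 ^ k % 16 = c' / 16 ^ k' % 16) : wd c k = wd c' k' := by
  unfold wd
  have h1 : c / 16 ^ k % 2 = c' / 16 ^ k' % 2 := by omega
  have h2 : c / 16 ^ k / 4 % 2 = c' / 16 ^ k' / 4 % 2 := by omega
  rw [h1, h2]

lemma ins_low {i a k : ℕ} (hi : i < 5) (hk : k < i) : ins i a / 16 ^ k % 16 = a / 16 ^ k % 16 := by
  unfold ins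
  interval_cases i <;> interval_cases k <;> norm_num <;> omega

lemma ins_eq {i a : ℕ} (hi : i < 5) : ins i a / 16 ^ i % 16 = 1 := by
  unfold ins
  interval_cases i <;> norm_num <;> omega

lemma ins_high {i a k : ℕ} (hik : i < k) :
    ins i a / 16 ^ k % 16 = a / 16 ^ (k - 1) % 16 := by
  have hpos : 0 < 16 ^ i := by positivity
  have h1 : ins i a / 16 ^ (i + 1) = a / 16 ^ i := by
    unfold ins
    rw [Nat.add_mul_div_left _ _ (by positivity), Nat.div_eq_of_lt, zero_add]
    have := Nat.mod_lt a hpos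
    rw [pow_succ]
    omega
  obtain ⟨m, rfl⟩ : ∃ m, k = i + 1 + m := ⟨k - (i + 1), by omega⟩
  have e : i + 1 + m - 1 = i + m := by omega
  rw [e, pow_add 16 (i + 1) m, ← Nat.div_div_eq_div_mul, h1, Nat.div_div_eq_div_mul, ← pow_add]

lemma wd_ins_eq {i a : ℕ} (hi : i < 5) : wd (ins i a) i = (true, false) := by
  have h := ins_eq (a := a) hi
  unfold wd
  have h1 : ins i a / 16 ^ i % 2 = 1 := by omega
  have h2 : ins i a / 16 ^ i / 4 % 2 = 0 := by omega
  rw [h1, h2]
  rfl

theorem emb_shift {H : Finset ℕ} {i j : ℕ} (hij : i ≤ j) (hj : j < 5) (hH : H.card = 6)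
    {p q : ℕ} (hp : p ∈ H) (hq : q ∈ H) (hqi : rk H q = i) (hpj : rk H p = j + 1) {a : ℕ} :
    emb (H.erase p) (wd (ins i a)) = emb (H.erase q) (wd (ins j a)) := by
  have hqp : q < p := (rk_lt_iff hq hp).1 (by omega)
  funext x
  change (if x ∈ H.erase p then wd (ins i a) (rk (H.erase p) x) else (true, false)) =
    (if x ∈ H.erase q then wd (ins j a) (rk (H.erase q) x) else (true, false))
  by_cases hx : x ∈ H
  · have hx6 : rk H x < 6 := hH ▸ rk_lt hx
    by_cases hxp : x = p
    · subst hxp
      rw [if_neg (Finset.notMem_erase _ _), if_pos (Finset.mem_erase.2 ⟨hqp.ne', hx⟩),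
        rk_erase_lt hq hqp, hpj, Nat.add_sub_cancel, wd_ins_eq hj]
    · by_cases hxq : x = q
      · subst hxq
        rw [if_neg (Finset.notMem_erase x H), if_pos (Finset.mem_erase.2 ⟨hqp.ne, hx⟩),
          rk_erase_ge (by omega), hqi, wd_ins_eq (by omega)]
      · rw [if_pos (Finset.mem_erase.2 ⟨hxp, hx⟩), if_pos (Finset.mem_erase.2 ⟨hxq, hx⟩)]
        apply wd_congr
        rcases lt_trichotomy x q with h1 | h1 | h1
        · have hr := (rk_lt_iff hx hq).2 h1
          rw [rk_erase_ge (by omega), rk_erase_ge (by omega), ins_low (by omega) (by omega),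
            ins_low (by omega) (by omega)]
        · exact absurd h1 hxq
        · have hr := (rk_lt_iff hq hx).2 h1
          rcases lt_trichotomy x p with h2 | h2 | h2
          · have hr2 := (rk_lt_iff hx hp).2 h2
            rw [rk_erase_ge (by omega), rk_erase_lt hq h1, ins_high (by omega),
              ins_low (by omega) (by omega)]
          · exact absurd h2 hxp
          · have hr2 := (rk_lt_iff hp hx).2 h2
            rw [rk_erase_lt hp h2, rk_erase_lt hq h1, ins_high (by omega),
              ins_high (by omega)]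
  · rw [if_neg (fun h => hx (Finset.mem_of_mem_erase h)),
      if_neg (fun h => hx (Finset.mem_of_mem_erase h))]

end Pool.Agent.Work.MP_b2b647_co
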