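import Pool.Agent.Work.MP_b2b647_co.SpikeDefs

namespace Pool.Agent.Work.MP_b2b647_co

open Finset

theorem convex_basePolytope {n : ℕ} (f : Finset (Fin n) → ℕ) : Convex ℝ (basePolytope f) := by
  intro x hx y hy a b ha hb hab
  refine ⟨fun S => ?_, ?_⟩
  · have h1 := hx.1 S
    have h2 := hy.1 S
    simp only [Pi.add_apply, Pi.smul_apply, smul_eq_mul, Finset.sum_add_distrib, ← Finset.mul_sum]
    calc a * ∑ i ∈ S, x i + b * ∑ i ∈ S, y i ≤ a * f S + b * f S := by gcongr
      _ = f S := by rw [← add_mul, hab, one_mul]
  · simp only [Pi.add_apply, Pi.smul_apply, smul_eq_mul, Finset.sum_add_distrib, ← Finset.mul_sum]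
    rw [hx.2, hy.2, ← add_mul, hab, one_mul]

theorem spikeRank_polymatroid (r : ℕ) : IsIntegerPolymatroid (spikeRank r) where
  empty := by simp [spikeRank]
  mono S T h := Submodule.finrank_mono (Submodule.span_mono (Set.image_mono (by exact_mod_cast h)))
  submodular S T := by
    unfold spikeRank
    rw [Finset.coe_union, Set.image_union, Submodule.span_union]
    have h := Submodule.finrank_sup_add_finrank_inf_eq
      (Submodule.span (ZMod 2) (spikeVec r '' (S : Set (Fin (2 * r)))))
      (Submodule.span (ZMod 2) (spikeVec r '' (T : Set (Fin (2 * r)))))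
    have h2 : Module.finrank (ZMod 2)
        (Submodule.span (ZMod 2) (spikeVec r '' ((S ∩ T : Finset (Fin (2 * r))) :
          Set (Fin (2 * r))))) ≤ Module.finrank (ZMod 2)
      ((Submodule.span (ZMod 2) (spikeVec r '' (S : Set (Fin (2 * r)))) ⊓
      (Submodule.span (ZMod 2) (spikeVec r '' (T : Set (Fin (2 * r)))))) :
        Submodule (ZMod 2) (Fin r → ZMod 2)) := by
      refine Submodule.finrank_mono (le_inf ?_ ?_)
      · exact Submodule.span_mono (Set.image_mono (by simp))
      · exact Submodule.span_mono (Set.image_mono (by simp))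
    omega

lemma spikeRank_le_card (r : ℕ) (S : Finset (Fin (2 * r))) : spikeRank r S ≤ S.card := by
  classical
  unfold spikeRank
  have h := finrank_span_finset_le_card (R := ZMod 2) (S.image (spikeVec r))
  rw [Set.finrank, Finset.coe_image] at h
  exact h.trans Finset.card_image_le

/-- The element `2 i`. -/
def el0 {r : ℕ} (i : Fin r) : Fin (2 * r) := ⟨2 * i, by omega⟩

/-- The element `2 i + 1`. -/
def el1 {r : ℕ} (i : Fin r) : Fin (2 * r) := ⟨2 * i + 1, by omega⟩

lemma spikeVec_el0 {r : ℕ} (i : Fin r) : spikeVec r (el0 i) = Pi.single i 1 := by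
  funext k
  have h1 : ((el0 i : Fin (2 * r)) : ℕ) / 2 = i := by simp only [el0]; omega
  have h2 : ((el0 i : Fin (2 * r)) : ℕ) % 2 = 0 := by simp only [el0]; omega
  simp only [spikeVec, h1, h2, Pi.single_apply]
  by_cases h : k = i
  · simp [h]
  · have : (i : ℕ) ≠ k := fun hh => h (Fin.ext hh.symm)
    simp [h, this]

lemma spikeVec_el1 {r : ℕ} (i : Fin r) : spikeVec r (el1 i) = Pi.single i 1 + 1 := by
  funext k
  have h1 : ((el1 i : Fin (2 * r)) : ℕ) / 2 = i := by simp only [el1]; omega
  have h2 : ((el1 i : Fin (2 * r)) : ℕ) % 2 = 1 := by simp only [el1]; omega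
  simp only [spikeVec, h1, h2, Pi.single_apply, Pi.add_apply, Pi.one_apply]
  by_cases h : k = i
  · simp [h]
  · have : (i : ℕ) ≠ k := fun hh => h (Fin.ext hh.symm)
    simp [h, this]

lemma el_cases {r : ℕ} (j : Fin (2 * r)) : ∃ i : Fin r, j = el0 i ∨ j = el1 i := by
  refine ⟨⟨j / 2, by omega⟩, ?_⟩
  rcases Nat.mod_two_eq_zero_or_one j with h | h
  · left; apply Fin.ext; simp only [el0]; omega
  · right; apply Fin.ext; simp only [el1]; omega

lemma pt_el0 {r : ℕ} (ω : ℕ → Bool × Bool) (i : Fin r) :
    pt r ω (el0 i) = if (ω i).1 then 1 else 0 := by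
  have h1 : 2 * (i : ℕ) / 2 = i := by omega
  have h2 : 2 * (i : ℕ) % 2 = 0 := by omega
  simp only [pt, el0]
  rw [h1, h2]
  simp

lemma pt_el1 {r : ℕ} (ω : ℕ → Bool × Bool) (i : Fin r) :
    pt r ω (el1 i) = if (ω i).2 then 1 else 0 := by
  have h1 : (2 * (i : ℕ) + 1) / 2 = i := by omega
  have h2 : (2 * (i : ℕ) + 1) % 2 = 1 := by omega
  simp only [pt, el1]
  rw [h1, h2]
  simp

lemma sum_two_mul {r : ℕ} (f : Fin (2 * r) → ℤ) :
    ∑ j, f j = ∑ i : Fin r, (f (el0 i) + f (el1 i)) := by
  have key : ∀ (n : ℕ) (g : ℕ → ℤ), ∑ j ∈ range (2 * n), g j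
      = ∑ i ∈ range n, (g (2 * i) + g (2 * i + 1)) := by
    intro n g
    induction n with
    | zero => simp
    | succ n ih =>
      rw [Finset.sum_range_succ, ← ih, show 2 * (n + 1) = 2 * n + 1 + 1 by ring,
        Finset.sum_range_succ, Finset.sum_range_succ, add_assoc]
  have h := key r (fun j => if h : j < 2 * r then f ⟨j, h⟩ else 0)
  rw [Finset.sum_range, Finset.sum_range] at h
  have e1 : ∑ i : Fin (2 * r), (if h : (i : ℕ) < 2 * r then f ⟨i, h⟩ else 0) = ∑ j, f j := by
    refine Finset.sum_congr rfl fun j _ => ?_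
    simp
  rw [← e1, h]
  refine Finset.sum_congr rfl fun i _ => ?_
  have h1 : 2 * (i : ℕ) < 2 * r := by omega
  have h2 : 2 * (i : ℕ) + 1 < 2 * r := by omega
  simp only [h1, h2, dif_pos, el0, el1]

lemma cnt_eq {r : ℕ} (ω : ℕ → Bool × Bool) (s : Bool × Bool) :
    cnt r ω s = ∑ i : Fin r, if ω i = s then 1 else 0 := by
  unfold cnt
  rw [Finset.card_filter, Finset.sum_range]

lemma cnt_sum (r : ℕ) (ω : ℕ → Bool × Bool) :
    cnt r ω (true, true) + cnt r ω (true, false) + cnt r ω (false, true)
      + cnt r ω (false, false) = r := by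
  rw [cnt_eq, cnt_eq, cnt_eq, cnt_eq, ← Finset.sum_add_distrib, ← Finset.sum_add_distrib,
    ← Finset.sum_add_distrib]
  have : ∀ i : Fin r, (((if ω i = (true, true) then 1 else 0) + if ω i = (true, false) then 1 else 0)
      + if ω i = (false, true) then 1 else 0) + (if ω i = (false, false) then 1 else 0) = 1 := by
    intro i
    rcases h : ω i with ⟨a, b⟩
    cases a <;> cases b <;> simp
  rw [Finset.sum_congr rfl fun i _ => this i]
  simp

lemma sum_pt (r : ℕ) (ω : ℕ → Bool × Bool) :
    ∑ j, pt r ω j = 2 * (cnt r ω (true, true) : ℤ) + cnt r ω (true, false)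
      + cnt r ω (false, true) := by
  rw [sum_two_mul, cnt_eq, cnt_eq, cnt_eq]
  push_cast
  rw [Finset.mul_sum, ← Finset.sum_add_distrib, ← Finset.sum_add_distrib]
  refine Finset.sum_congr rfl fun i _ => ?_
  rw [pt_el0, pt_el1]
  rcases h : ω i with ⟨a, b⟩
  cases a <;> cases b <;> simp

/-- The support of a word. -/
def supp (r : ℕ) (ω : ℕ → Bool × Bool) : Finset (Fin (2 * r)) := {j | pt r ω j = 1}

lemma pt_eq_ite (r : ℕ) (ω : ℕ → Bool × Bool) (j : Fin (2 * r)) :
    pt r ω j = if j ∈ supp r ω then 1 else 0 := by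
  simp only [supp, Finset.mem_filter, Finset.mem_univ, true_and]
  unfold pt
  split_ifs <;> simp_all

lemma sum_pt_eq_card (r : ℕ) (ω : ℕ → Bool × Bool) (T : Finset (Fin (2 * r))) :
    ∑ j ∈ T, pt r ω j = (T ∩ supp r ω).card := by
  rw [Finset.sum_congr rfl fun j _ => pt_eq_ite r ω j, Finset.sum_ite_mem]
  simp

lemma span_eq_top_of {r : ℕ} {U : Submodule (ZMod 2) (Fin r → ZMod 2)}
    (h : ∀ i : Fin r, Pi.single i 1 ∈ U) : U = ⊤ := by
  rw [eq_top_iff]
  intro x _
  rw [pi_eq_sum_univ' x]
  refine Submodule.sum_mem _ fun i _ => ?_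
  have := U.smul_mem (x i) (h i)
  convert this using 1

lemma one_eq_sum (r : ℕ) : (1 : Fin r → ZMod 2) = ∑ i : Fin r, Pi.single i 1 := by
  funext k
  simp [Finset.sum_apply, Pi.single_apply]

lemma finrank_of_top {r : ℕ} {U : Submodule (ZMod 2) (Fin r → ZMod 2)} (h : U = ⊤) :
    Module.finrank (ZMod 2) U = r := by
  rw [h, finrank_top]
  simp

lemma spikeRank_univ (r : ℕ) : spikeRank r univ = r := by
  unfold spikeRank
  apply finrank_of_top
  apply span_eq_top_of
  intro i
  apply Submodule.subset_span
  exact ⟨el0 i, by simp, spikeVec_el0 i⟩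

lemma spikeRank_le (r : ℕ) (S : Finset (Fin (2 * r))) : spikeRank r S ≤ r := by
  conv_rhs => rw [← spikeRank_univ r]
  exact (spikeRank_polymatroid r).mono _ _ (Finset.subset_univ _)

lemma el0_mem_supp {r : ℕ} (ω : ℕ → Bool × Bool) (i : Fin r) :
    el0 i ∈ supp r ω ↔ (ω i).1 = true := by
  simp only [supp, Finset.mem_filter, Finset.mem_univ, true_and, pt_el0]
  split_ifs <;> simp_all

lemma el1_mem_supp {r : ℕ} (ω : ℕ → Bool × Bool) (i : Fin r) :
    el1 i ∈ supp r ω ↔ (ω i).2 = true := by
  simp only [supp, Finset.mem_filter, Finset.mem_univ, true_and, pt_el1]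
  split_ifs <;> simp_all

lemma cnt_eq_zero {r : ℕ} {ω : ℕ → Bool × Bool} {s : Bool × Bool} (h : cnt r ω s = 0)
    (i : Fin r) : ω i ≠ s := by
  unfold cnt at h
  rw [Finset.card_eq_zero] at h
  intro hi
  have : (i : ℕ) ∈ ({i ∈ range r | ω i = s} : Finset ℕ) := by simp [hi]
  rw [h] at this
  simp at this

lemma cnt_eq_one {r : ℕ} {ω : ℕ → Bool × Bool} {s : Bool × Bool} (h : cnt r ω s = 1) :
    ∃ i : Fin r, ω i = s ∧ ∀ k : Fin r, ω k = s → k = i := by
  unfold cnt at h
  rw [Finset.card_eq_one] at h
  obtain ⟨a, ha⟩ := h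
  have hmem : a ∈ ({i ∈ range r | ω i = s} : Finset ℕ) := by rw [ha]; simp
  rw [Finset.mem_filter, Finset.mem_range] at hmem
  refine ⟨⟨a, hmem.1⟩, hmem.2, fun k hk => ?_⟩
  have : (k : ℕ) ∈ ({i ∈ range r | ω i = s} : Finset ℕ) := by simp [hk]
  rw [ha, Finset.mem_singleton] at this
  exact Fin.ext this

lemma span_supp_eq_top {r : ℕ} {ω : ℕ → Bool × Bool} (h : BaseW r ω) :
    Submodule.span (ZMod 2) (spikeVec r '' (supp r ω : Set (Fin (2 * r)))) = ⊤ := by
  set U := Submodule.span (ZMod 2) (spikeVec r '' (supp r ω : Set (Fin (2 * r)))) with hU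
  have m0 : ∀ i : Fin r, (ω i).1 = true → Pi.single i 1 ∈ U := by
    intro i hi
    apply Submodule.subset_span
    exact ⟨el0 i, by simpa using (el0_mem_supp ω i).2 hi, spikeVec_el0 i⟩
  have m1 : ∀ i : Fin r, (ω i).2 = true → Pi.single i 1 + 1 ∈ U := by
    intro i hi
    apply Submodule.subset_span
    exact ⟨el1 i, by simpa using (el1_mem_supp ω i).2 hi, spikeVec_el1 i⟩
  apply span_eq_top_of
  rcases h with ⟨hB, hD, hC⟩ | ⟨hB, hD⟩
  · -- the all-one vector
    have hone : (1 : Fin r → ZMod 2) ∈ U := by
      have hs : ∑ i : Fin r, (Pi.single i (1 : ZMod 2) + if (ω i).2 = true then 1 else 0) ∈ U := by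
        refine Submodule.sum_mem _ fun i _ => ?_
        by_cases h2 : (ω i).2 = true
        · rw [if_pos h2]; exact m1 i h2
        · rw [if_neg h2, add_zero]
          refine m0 i ?_
          by_contra h1
          exact cnt_eq_zero hD i (by rcases hh : ω i with ⟨a, b⟩; simp_all)
      rw [Finset.sum_add_distrib, ← one_eq_sum] at hs
      have hz : ∑ i : Fin r, (if (ω i).2 = true then (1 : Fin r → ZMod 2) else 0) = 0 := by
        have e : ∀ i : Fin r, (if (ω i).2 = true then (1 : Fin r → ZMod 2) else 0)
            = (if ω i = (false, true) then 1 else 0) • (1 : Fin r → ZMod 2) := by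
          intro i
          have hne := cnt_eq_zero hB i
          rcases hh : ω i with ⟨a, b⟩
          rw [hh] at hne
          cases a <;> cases b <;> simp_all
        rw [Finset.sum_congr rfl fun i _ => e i, ← Finset.sum_smul, ← cnt_eq]
        obtain ⟨k, hk⟩ := hC
        rw [hk]
        funext j
        simp [← two_mul]
        left
        decide
      rw [hz, add_zero] at hs
      exact hs
    intro i
    by_cases h2 : (ω i).2 = true
    · have := U.sub_mem (m1 i h2) hone
      simpa using this
    · refine m0 i ?_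
      by_contra h1
      exact cnt_eq_zero hD i (by rcases hh : ω i with ⟨a, b⟩; simp_all)
  · obtain ⟨b, hb, -⟩ := cnt_eq_one hB
    obtain ⟨d, hd, hdu⟩ := cnt_eq_one hD
    have hone : (1 : Fin r → ZMod 2) ∈ U := by
      have h1 := m0 b (by rw [hb])
      have h2 := m1 b (by rw [hb])
      have := U.sub_mem h2 h1
      simpa using this
    have hne : ∀ i : Fin r, i ≠ d → Pi.single i (1 : ZMod 2) ∈ U := by
      intro i hi
      by_cases h2 : (ω i).2 = true
      · have := U.sub_mem (m1 i h2) hone
        simpa using this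
      · refine m0 i ?_
        by_contra h1
        exact hi (hdu i (by rcases hh : ω i with ⟨a, b⟩; simp_all))
    intro i
    by_cases hi : i = d
    · subst hi
      have e : Pi.single i (1 : ZMod 2) = (1 : Fin r → ZMod 2)
          - ∑ k ∈ univ.erase i, Pi.single k (1 : ZMod 2) := by
        rw [one_eq_sum, ← Finset.add_sum_erase univ _ (Finset.mem_univ i)]
        simp
      rw [e]
      refine U.sub_mem hone (Submodule.sum_mem _ fun k hk => hne k (Finset.ne_of_mem_erase hk))
    · exact hne i hi

lemma mem_basePolytope_int {n : ℕ} (f : Finset (Fin n) → ℕ) (z : Fin n → ℤ) :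
    toReal z ∈ basePolytope f ↔ (∀ S : Finset (Fin n), ∑ i ∈ S, z i ≤ (f S : ℤ)) ∧
      ∑ i, z i = (f univ : ℤ) := by
  unfold basePolytope toReal
  constructor
  · rintro ⟨h1, h2⟩
    refine ⟨fun S => ?_, ?_⟩
    · have := h1 S
      simp only at this
      exact_mod_cast this
    · simp only at h2
      exact_mod_cast h2
  · rintro ⟨h1, h2⟩
    refine ⟨fun S => ?_, ?_⟩
    · have := h1 S
      simp only
      exact_mod_cast this
    · simp only
      exact_mod_cast h2

theorem mem_basePolytope_iff' (r : ℕ) (z : Fin (2 * r) → ℤ) :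
    toReal z ∈ basePolytope (spikeRank r) ↔ ∃ ω : ℕ → Bool × Bool, z = pt r ω ∧ BaseW r ω := by
  rw [mem_basePolytope_int]
  constructor
  · rintro ⟨h1, h2⟩
    rw [spikeRank_univ] at h2
    have hle : ∀ j, z j ≤ 1 := by
      intro j
      have h := h1 {j}
      rw [Finset.sum_singleton] at h
      have h' := spikeRank_le_card r {j}
      rw [Finset.card_singleton] at h'
      omega
    have hge : ∀ j, 0 ≤ z j := by
      intro j
      have h := h1 (univ.erase j)
      have h' := spikeRank_le r (univ.erase j)
      have h3 := Finset.add_sum_erase univ z (Finset.mem_univ j)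
      omega
    have h01 : ∀ j, z j = 0 ∨ z j = 1 := fun j => by
      have := hle j
      have := hge j
      omega
    classical
    set ω : ℕ → Bool × Bool := fun i => if h : i < r then
      (decide (z (el0 ⟨i, h⟩) = 1), decide (z (el1 ⟨i, h⟩) = 1)) else (false, false) with hω
    have hz : z = pt r ω := by
      funext j
      obtain ⟨i, rfl | rfl⟩ := el_cases j
      · rw [pt_el0]
        simp only [hω, i.2, dif_pos]
        rcases h01 (el0 i) with h | h <;> simp [h]
      · rw [pt_el1]
        simp only [hω, i.2, dif_pos]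
        rcases h01 (el1 i) with h | h <;> simp [h]
    refine ⟨ω, hz, ?_⟩
    rw [hz] at h1 h2
    rw [sum_pt] at h2
    have h3 := cnt_sum r ω
    have hBD : cnt r ω (true, true) = cnt r ω (false, false) := by omega
    have hB : cnt r ω (true, true) ≤ 1 := by
      by_contra hcon
      have hcard : 1 < cnt r ω (true, true) := by omega
      unfold cnt at hcard
      rw [Finset.one_lt_card] at hcard
      obtain ⟨a, ha, b, hb, hab⟩ := hcard
      rw [Finset.mem_filter, Finset.mem_range] at ha hb
      set i : Fin r := ⟨a, ha.1⟩ with hi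
      set k : Fin r := ⟨b, hb.1⟩ with hk
      have hik : i ≠ k := fun h => hab (by simpa [hi, hk] using h)
      have hT := h1 {el0 i, el1 i, el0 k, el1 k}
      have hne : (i : ℕ) ≠ k := fun h => hik (Fin.ext h)
      have d1 : el0 i ≠ el1 i := fun h => by
        have := congrArg Fin.val h; simp only [el0, el1] at this; omega
      have d2 : el0 i ≠ el0 k := fun h => by
        have := congrArg Fin.val h; simp only [el0] at this; omega
      have d3 : el0 i ≠ el1 k := fun h => by
        have := congrArg Fin.val h; simp only [el0, el1] at this; omega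
      have d4 : el1 i ≠ el0 k := fun h => by
        have := congrArg Fin.val h; simp only [el0, el1] at this; omega
      have d5 : el1 i ≠ el1 k := fun h => by
        have := congrArg Fin.val h; simp only [el1] at this; omega
      have d6 : el0 k ≠ el1 k := fun h => by
        have := congrArg Fin.val h; simp only [el0, el1] at this; omega
      rw [Finset.sum_insert (by simp [d1, d2, d3]), Finset.sum_insert (by simp [d4, d5]),
        Finset.sum_insert (by simp [d6]), Finset.sum_singleton, pt_el0, pt_el1, pt_el0, pt_el1] at hT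
      have hωi : ω i = (true, true) := ha.2
      have hωk : ω k = (true, true) := hb.2
      rw [hωi, hωk] at hT
      simp only [if_true] at hT
      have hrank : spikeRank r {el0 i, el1 i, el0 k, el1 k} ≤ 3 := by
        unfold spikeRank
        set F : Finset (Fin r → ZMod 2) := {Pi.single i 1, Pi.single k 1, 1} with hF
        have hFc : F.card ≤ 3 := Finset.card_le_three
        have hFr := finrank_span_finset_le_card (R := ZMod 2) F
        rw [Set.finrank] at hFr
        refine (Submodule.finrank_mono ?_).trans (hFr.trans hFc)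
        rw [Submodule.span_le]
        have f1 : Pi.single i 1 ∈ Submodule.span (ZMod 2) (F : Set (Fin r → ZMod 2)) :=
          Submodule.subset_span (by simp [hF])
        have f2 : Pi.single k 1 ∈ Submodule.span (ZMod 2) (F : Set (Fin r → ZMod 2)) :=
          Submodule.subset_span (by simp [hF])
        have f3 : 1 ∈ Submodule.span (ZMod 2) (F : Set (Fin r → ZMod 2)) :=
          Submodule.subset_span (by simp [hF])
        rintro x ⟨j, hj, rfl⟩
        simp only [Finset.coe_insert, Finset.coe_singleton, Set.mem_insert_iff,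
          Set.mem_singleton_iff] at hj
        rw [SetLike.mem_coe]
        rcases hj with rfl | rfl | rfl | rfl
        · rw [spikeVec_el0]; exact f1
        · rw [spikeVec_el1]; exact Submodule.add_mem _ f1 f3
        · rw [spikeVec_el0]; exact f2
        · rw [spikeVec_el1]; exact Submodule.add_mem _ f2 f3
      omega
    rcases Nat.eq_zero_or_pos (cnt r ω (true, true)) with hB0 | hB1
    · left
      refine ⟨hB0, hBD ▸ hB0, ?_⟩
      by_contra hodd
      rw [Nat.not_even_iff_odd] at hodd
      -- the sum over the legs in state `(false, true)` vanishes on the span of the support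
      set φ : (Fin r → ZMod 2) →ₗ[ZMod 2] ZMod 2 :=
        ∑ i : Fin r, (if ω i = (false, true) then (1 : ZMod 2) else 0) • LinearMap.proj i with hφ
      have hφe : ∀ x, φ x = ∑ i : Fin r, (if ω i = (false, true) then (1 : ZMod 2) else 0) * x i := by
        intro x
        rw [hφ, LinearMap.sum_apply]
        refine Finset.sum_congr rfl fun i _ => ?_
        rw [LinearMap.smul_apply, LinearMap.proj_apply, smul_eq_mul]
      have hφs : ∀ i : Fin r, φ (Pi.single i 1) = if ω i = (false, true) then 1 else 0 := by
        intro i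
        rw [hφe]
        simp [Pi.single_apply]
      have hφ1 : φ 1 = 1 := by
        rw [hφe]
        simp only [Pi.one_apply, mul_one]
        have := cnt_eq (r := r) ω (false, true)
        have h4 := congrArg (Nat.cast : ℕ → ZMod 2) this
        push_cast at h4
        rw [← h4]
        obtain ⟨m, hm⟩ := hodd
        rw [hm]
        push_cast
        have h2 : (2 : ZMod 2) = 0 := by decide
        rw [h2]
        simp
      have hsub : Submodule.span (ZMod 2) (spikeVec r '' (supp r ω : Set (Fin (2 * r))))
          ≤ LinearMap.ker φ := by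
        rw [Submodule.span_le]
        rintro x ⟨j, hj, rfl⟩
        rw [SetLike.mem_coe, LinearMap.mem_ker]
        obtain ⟨i, rfl | rfl⟩ := el_cases j
        · have h5 := (el0_mem_supp ω i).1 (by simpa using hj)
          rw [spikeVec_el0, hφs, if_neg]
          intro hh
          rw [hh] at h5
          simp at h5
        · have h5 := (el1_mem_supp ω i).1 (by simpa using hj)
          have h6 := cnt_eq_zero hB0 i
          rw [spikeVec_el1, map_add, hφs, hφ1, if_pos]
          · decide
          · exact Prod.ext (by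
              by_contra h8
              rw [Bool.not_eq_false] at h8
              exact h6 (Prod.ext h8 h5)) h5
      have hlt : spikeRank r (supp r ω) < r := by
        unfold spikeRank
        have hker : LinearMap.ker φ ≠ ⊤ := by
          intro htop
          have : (1 : Fin r → ZMod 2) ∈ LinearMap.ker φ := by rw [htop]; trivial
          rw [LinearMap.mem_ker, hφ1] at this
          exact one_ne_zero this
        have h7 := Submodule.finrank_lt hker
        have h8 : Module.finrank (ZMod 2) (Fin r → ZMod 2) = r := by simp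
        have h9 := Submodule.finrank_mono hsub
        omega
      have h10 := h1 (supp r ω)
      rw [sum_pt_eq_card, Finset.inter_self] at h10
      have h11 := sum_pt_eq_card r ω univ
      rw [Finset.univ_inter, sum_pt] at h11
      omega
    · right
      have : cnt r ω (true, true) = 1 := by omega
      exact ⟨this, hBD ▸ this⟩
  · rintro ⟨ω, rfl, hω⟩
    have hrk : spikeRank r (supp r ω) = r := by
      unfold spikeRank
      exact finrank_of_top (span_supp_eq_top hω)
    have hsum : ∑ j, pt r ω j = r := by
      rw [sum_pt]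
      have h3 := cnt_sum r ω
      rcases hω with ⟨hB, hD, -⟩ | ⟨hB, hD⟩ <;> omega
    refine ⟨fun T => ?_, ?_⟩
    · rw [sum_pt_eq_card]
      have hcard : (supp r ω).card = r := by
        have := sum_pt_eq_card r ω univ
        rw [Finset.univ_inter, hsum] at this
        omega
      have h1 := (spikeRank_polymatroid r).submodular (T ∩ supp r ω) (supp r ω \ T)
      have h2 : (T ∩ supp r ω) ∪ (supp r ω \ T) = supp r ω := by
        ext j
        simp only [Finset.mem_union, Finset.mem_inter, Finset.mem_sdiff]
        tauto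
      have h3 := spikeRank_le_card r (supp r ω \ T)
      have h4 := (spikeRank_polymatroid r).mono (T ∩ supp r ω) T Finset.inter_subset_left
      have h5 : (T ∩ supp r ω).card + (supp r ω \ T).card = (supp r ω).card := by
        rw [Finset.inter_comm]
        exact Finset.card_inter_add_card_sdiff _ _
      rw [h2] at h1
      omega
    · rw [hsum, spikeRank_univ]

theorem mem_basePolytope_iff (r : ℕ) (_hr : 2 ≤ r) (z : Fin (2 * r) → ℤ) :
    toReal z ∈ basePolytope (spikeRank r) ↔ ∃ ω : ℕ → Bool × Bool, z = pt r ω ∧ BaseW r ω :=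
  mem_basePolytope_iff' r z

end Pool.Agent.Work.MP_b2b647_co
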