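import Pool.Agent.Work.MP_b2b647_co.PullDefs
import Pool.Agent.Work.MP_b2b647_co.Spike
import Pool.Agent.Work.MP_b2b647_co.PullRk
import Pool.Agent.Work.MP_b2b647_co.PullA
import Pool.Agent.Work.MP_b2b647_co.PullB

namespace Pool.Agent.Work.MP_b2b647_co

open Finset Check

/-! ### Codes -/

/-- The base-16 digit of a leg state. -/
def dig (s : Bool × Bool) : ℕ := (if s.1 then 1 else 0) + 4 * (if s.2 then 1 else 0)

/-- The code of a word of length five. -/
def code (g : ℕ → Bool × Bool) : ℕ :=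
  dig (g 0) + 16 * dig (g 1) + 256 * dig (g 2) + 4096 * dig (g 3) + 65536 * dig (g 4)

lemma dig_cases (s : Bool × Bool) : dig s = 0 ∨ dig s = 1 ∨ dig s = 4 ∨ dig s = 5 := by
  rcases s with ⟨a, b⟩
  cases a <;> cases b <;> simp [dig]

lemma dig_le (s : Bool × Bool) : dig s ≤ 5 := by
  rcases dig_cases s with h | h | h | h <;> omega

lemma dig_injective : Function.Injective dig := by
  rintro ⟨a, b⟩ ⟨c, d⟩ h
  cases a <;> cases b <;> cases c <;> cases d <;> simp [dig] at h ⊢

lemma code_lt (g : ℕ → Bool × Bool) : code g < 1048576 := by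
  have h0 := dig_le (g 0); have h1 := dig_le (g 1); have h2 := dig_le (g 2)
  have h3 := dig_le (g 3); have h4 := dig_le (g 4)
  unfold code; omega

lemma code_digit (g : ℕ → Bool × Bool) {i : ℕ} (hi : i < 5) :
    code g / 16 ^ i % 16 = dig (g i) := by
  have h0 := dig_le (g 0); have h1 := dig_le (g 1); have h2 := dig_le (g 2)
  have h3 := dig_le (g 3); have h4 := dig_le (g 4)
  unfold code
  interval_cases i <;> norm_num <;> omega

lemma wd_eq_iff {c i : ℕ} {s : Bool × Bool} (h : c / 16 ^ i % 16 = dig s) : wd c i = s := by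
  unfold wd
  rcases s with ⟨a, b⟩
  cases a <;> cases b <;> simp [dig] at h ⊢ <;> omega

lemma wd_code (g : ℕ → Bool × Bool) {i : ℕ} (hi : i < 5) : wd (code g) i = g i :=
  wd_eq_iff (code_digit g hi)

lemma dig_wd {c i : ℕ} (h : c / 16 ^ i % 16 = 0 ∨ c / 16 ^ i % 16 = 1 ∨ c / 16 ^ i % 16 = 4 ∨
    c / 16 ^ i % 16 = 5) : dig (wd c i) = c / 16 ^ i % 16 := by
  rcases h with h | h | h | h
  · rw [wd_eq_iff (s := (false, false)) (by simpa [dig] using h), h]; rfl
  · rw [wd_eq_iff (s := (true, false)) (by simpa [dig] using h), h]; rfl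
  · rw [wd_eq_iff (s := (false, true)) (by simpa [dig] using h), h]; rfl
  · rw [wd_eq_iff (s := (true, true)) (by simpa [dig] using h), h]; rfl

lemma code_wd {c : ℕ} (hc : c < 1048576)
    (h : ∀ i < 5, c / 16 ^ i % 16 = 0 ∨ c / 16 ^ i % 16 = 1 ∨ c / 16 ^ i % 16 = 4 ∨
      c / 16 ^ i % 16 = 5) : code (wd c) = c := by
  unfold code
  rw [dig_wd (h 0 (by norm_num)), dig_wd (h 1 (by norm_num)), dig_wd (h 2 (by norm_num)),
    dig_wd (h 3 (by norm_num)), dig_wd (h 4 (by norm_num))]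
  norm_num
  omega

lemma cast_code (g : ℕ → Bool × Bool) :
    ∑ i ∈ range 5, ((dig (g i) : ℤ) * 16 ^ i) = (code g : ℤ) := by
  unfold code
  simp only [Finset.sum_range_succ, Finset.sum_range_zero]
  push_cast
  ring

/-! ### Coordinates -/

/-- The coordinate of the element `2 a`. -/
def xc {N : ℕ} (z : Fin (2 * N) → ℤ) (a : ℕ) : ℤ := if h : 2 * a < 2 * N then z ⟨2 * a, h⟩ else 0

/-- The coordinate of the element `2 a + 1`. -/
def yc {N : ℕ} (z : Fin (2 * N) → ℤ) (a : ℕ) : ℤ :=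
  if h : 2 * a + 1 < 2 * N then z ⟨2 * a + 1, h⟩ else 0

lemma xc_add {N : ℕ} (z z' : Fin (2 * N) → ℤ) (a : ℕ) : xc (z + z') a = xc z a + xc z' a := by
  unfold xc; split_ifs <;> simp

lemma yc_add {N : ℕ} (z z' : Fin (2 * N) → ℤ) (a : ℕ) : yc (z + z') a = yc z a + yc z' a := by
  unfold yc; split_ifs <;> simp

lemma xc_pt {N : ℕ} (ω : ℕ → Bool × Bool) {a : ℕ} (ha : a < N) :
    xc (pt N ω) a = if (ω a).1 then 1 else 0 := by
  have h : 2 * a < 2 * N := by omega
  unfold xc pt
  rw [dif_pos h]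
  simp

lemma yc_pt {N : ℕ} (ω : ℕ → Bool × Bool) {a : ℕ} (ha : a < N) :
    yc (pt N ω) a = if (ω a).2 then 1 else 0 := by
  have h : 2 * a + 1 < 2 * N := by omega
  have h2 : (2 * a + 1) / 2 = a := by omega
  have h3 : (2 * a + 1) % 2 = 1 := by omega
  unfold yc pt
  rw [dif_pos h]
  simp only [h2, h3]
  simp

lemma ext_xy {N : ℕ} {z z' : Fin (2 * N) → ℤ} (h : ∀ a < N, xc z a = xc z' a ∧ yc z a = yc z' a) :
    z = z' := by
  funext j
  have hj := j.2
  obtain ⟨h1, h2⟩ := h ((j : ℕ) / 2) (by omega)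
  rcases Nat.mod_two_eq_zero_or_one (j : ℕ) with hm | hm
  · have e : 2 * ((j : ℕ) / 2) < 2 * N := by omega
    unfold xc at h1
    rw [dif_pos e, dif_pos e] at h1
    have e2 : (⟨2 * ((j : ℕ) / 2), e⟩ : Fin (2 * N)) = j := by
      apply Fin.ext
      change 2 * ((j : ℕ) / 2) = (j : ℕ)
      omega
    rwa [e2] at h1
  · have e : 2 * ((j : ℕ) / 2) + 1 < 2 * N := by omega
    unfold yc at h2
    rw [dif_pos e, dif_pos e] at h2
    have e2 : (⟨2 * ((j : ℕ) / 2) + 1, e⟩ : Fin (2 * N)) = j := by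
      apply Fin.ext
      change 2 * ((j : ℕ) / 2) + 1 = (j : ℕ)
      omega
    rwa [e2] at h2

lemma pt_congr {N : ℕ} {ω ω' : ℕ → Bool × Bool} (h : ∀ a < N, ω a = ω' a) : pt N ω = pt N ω' := by
  apply ext_xy
  intro a ha
  rw [xc_pt _ ha, xc_pt _ ha, yc_pt _ ha, yc_pt _ ha, h a ha]
  exact ⟨rfl, rfl⟩

lemma cnt_congr {N : ℕ} {ω ω' : ℕ → Bool × Bool} (h : ∀ a < N, ω a = ω' a) (s : Bool × Bool) :
    cnt N ω s = cnt N ω' s := by
  unfold cnt
  congr 1
  apply Finset.filter_congr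
  intro a ha
  rw [h a (Finset.mem_range.1 ha)]

lemma baseW_congr {N : ℕ} {ω ω' : ℕ → Bool × Bool} (h : ∀ a < N, ω a = ω' a) :
    BaseW N ω ↔ BaseW N ω' := by
  unfold BaseW
  rw [cnt_congr h, cnt_congr h, cnt_congr h]

/-- The point of the word `c` on the legs in `T`. -/
def P (N : ℕ) (T : Finset ℕ) (c : ℕ) : Fin (2 * N) → ℤ := pt N (emb T (wd c))

lemma emb_mem {T : Finset ℕ} {ω : ℕ → Bool × Bool} {a : ℕ} (h : a ∈ T) :
    emb T ω a = ω (rk T a) := if_pos h

lemma emb_not_mem {T : Finset ℕ} {ω : ℕ → Bool × Bool} {a : ℕ} (h : a ∉ T) :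
    emb T ω a = (true, false) := if_neg h

/-- The code as a linear functional of the point. -/
def Lf {N : ℕ} (T : Finset ℕ) (z : Fin (2 * N) → ℤ) : ℤ :=
  ∑ a ∈ T, (xc z a + 4 * yc z a) * 16 ^ rk T a

lemma Lf_add {N : ℕ} (T : Finset ℕ) (z z' : Fin (2 * N) → ℤ) : Lf T (z + z') = Lf T z + Lf T z' := by
  unfold Lf
  rw [← Finset.sum_add_distrib]
  refine Finset.sum_congr rfl fun a _ => ?_
  rw [xc_add, yc_add]
  ring

lemma Lf_P {N : ℕ} {T : Finset ℕ} (hT : T ⊆ range N) (hc5 : T.card = 5) {c : ℕ}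
    (hc : c < 1048576)
    (h : ∀ i < 5, c / 16 ^ i % 16 = 0 ∨ c / 16 ^ i % 16 = 1 ∨ c / 16 ^ i % 16 = 4 ∨
      c / 16 ^ i % 16 = 5) : Lf T (P N T c) = (c : ℤ) := by
  have e1 : Lf T (P N T c) = ∑ a ∈ T, (fun i => (dig (wd c i) : ℤ) * 16 ^ i) (rk T a) := by
    unfold Lf
    refine Finset.sum_congr rfl fun a ha => ?_
    have haN : a < N := Finset.mem_range.1 (hT ha)
    unfold P
    rw [xc_pt _ haN, yc_pt _ haN, emb_mem ha]
    simp only [dig]
    push_cast
    rfl
  rw [e1, sum_rk T (fun i => (dig (wd c i) : ℤ) * 16 ^ i), hc5, cast_code, code_wd hc h]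

/-! ### Members of the word trie -/

section

variable {V : Tr} (hV : IsWordTrie V) {N : ℕ} {T : Finset ℕ} (hT : T ⊆ range N)
  (hc5 : T.card = 5)

include hV in
lemma mem_lt {c : ℕ} (h : V.mem c = true) : c < 1048576 := ((hV c).1 h).1

include hV hT hc5 in
lemma Lf_mem {c : ℕ} (h : V.mem c = true) : Lf T (P N T c) = (c : ℤ) :=
  Lf_P hT hc5 ((hV c).1 h).1 ((hV c).1 h).2.1

include hV hT hc5 in
lemma P_injOn {c c' : ℕ} (h : V.mem c = true) (h' : V.mem c' = true) (he : P N T c = P N T c') :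
    c = c' := by
  have h1 := Lf_mem hV hT hc5 h
  have h2 := Lf_mem hV hT hc5 h'
  rw [he, h2] at h1
  exact_mod_cast h1.symm

include hV hT hc5 in
lemma baseW_P {c : ℕ} (h : V.mem c = true) : BaseW N (emb T (wd c)) :=
  (baseW_emb hT hc5 (wd c)).2 ((hV c).1 h).2.2

include hV hT hc5 in
/-- Decoding of a base that has the default state outside `T`. -/
lemma decode {ω : ℕ → Bool × Bool} (hb : BaseW N ω)
    (ho : ∀ a < N, a ∉ T → ω a = (true, false)) :
    ∃ c, V.mem c = true ∧ pt N ω = P N T c := by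
  have hex : ∀ i, ∃ a, i < 5 → a ∈ T ∧ rk T a = i := by
    intro i
    by_cases hi : i < 5
    · obtain ⟨a, ha, h⟩ := exists_rk (T := T) (k := i) (by omega)
      exact ⟨a, fun _ => ⟨ha, h⟩⟩
    · exact ⟨0, fun h => absurd h hi⟩
  choose t ht using hex
  have hcongr : ∀ a < N, emb T (wd (code fun i => ω (t i))) a = ω a := by
    intro a ha
    by_cases haT : a ∈ T
    · have hr : rk T a < 5 := hc5 ▸ rk_lt haT
      rw [emb_mem haT, wd_code _ hr]
      have h1 := ht (rk T a) hr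
      have h2 : t (rk T a) = a := rk_injOn T (by simpa using h1.1) (by simpa using haT) h1.2
      simp only [h2]
    · rw [emb_not_mem haT, ho a ha haT]
  refine ⟨code fun i => ω (t i), ?_, ?_⟩
  · rw [hV]
    refine ⟨code_lt _, fun i hi => ?_, ?_⟩
    · rw [code_digit _ hi]
      exact dig_cases _
    · rw [← baseW_emb hT hc5]
      exact (baseW_congr hcongr).2 hb
  · exact (pt_congr hcongr).symm

lemma xc_P_mem {c a : ℕ} (ha : a ∈ T) (haN : a < N) (hd : Dle 1 c) :
    xc (P N T c) a = ((c / 4 ^ (2 * rk T a) % 4 : ℕ) : ℤ) := by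
  have h1 := hd (2 * rk T a)
  unfold P
  rw [xc_pt _ haN, emb_mem ha]
  have e : (16 : ℕ) ^ rk T a = 4 ^ (2 * rk T a) := by
    rw [pow_mul]; norm_num
  unfold wd
  rw [e]
  simp only [decide_eq_true_eq]
  split_ifs with h2
  · have : c / 4 ^ (2 * rk T a) % 4 = 1 := by omega
    rw [this]; rfl
  · have : c / 4 ^ (2 * rk T a) % 4 = 0 := by omega
    rw [this]; rfl

lemma yc_P_mem {c a : ℕ} (ha : a ∈ T) (haN : a < N) (hd : Dle 1 c) :
    yc (P N T c) a = ((c / 4 ^ (2 * rk T a + 1) % 4 : ℕ) : ℤ) := by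
  have h1 := hd (2 * rk T a + 1)
  unfold P
  rw [yc_pt _ haN, emb_mem ha]
  have e : (16 : ℕ) ^ rk T a = 4 ^ (2 * rk T a) := by
    rw [pow_mul]; norm_num
  unfold wd
  rw [e, Nat.div_div_eq_div_mul, ← pow_succ]
  simp only [decide_eq_true_eq]
  split_ifs with h2
  · have : c / 4 ^ (2 * rk T a + 1) % 4 = 1 := by omega
    rw [this]; rfl
  · have : c / 4 ^ (2 * rk T a + 1) % 4 = 0 := by omega
    rw [this]; rfl

lemma xc_P_not_mem {c a : ℕ} (ha : a ∉ T) (haN : a < N) : xc (P N T c) a = 1 := by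
  unfold P
  rw [xc_pt _ haN, emb_not_mem ha]
  simp

lemma yc_P_not_mem {c a : ℕ} (ha : a ∉ T) (haN : a < N) : yc (P N T c) a = 0 := by
  unfold P
  rw [yc_pt _ haN, emb_not_mem ha]
  simp

end

/-! ### Addition without carry -/

lemma div_pow_add {a b : ℕ} (h : ∀ k, a / 4 ^ k % 4 + b / 4 ^ k % 4 ≤ 3) (k : ℕ) :
    (a + b) / 4 ^ k = a / 4 ^ k + b / 4 ^ k := by
  induction k with
  | zero => simp
  | succ k ih =>
    have e : ∀ n : ℕ, n / 4 ^ (k + 1) = n / 4 ^ k / 4 := by
      intro n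
      rw [pow_succ, Nat.div_div_eq_div_mul]
    have hk := h k
    rw [e, e, e, ih]
    omega

lemma digit_add {a b : ℕ} (h : ∀ k, a / 4 ^ k % 4 + b / 4 ^ k % 4 ≤ 3) (k : ℕ) :
    (a + b) / 4 ^ k % 4 = a / 4 ^ k % 4 + b / 4 ^ k % 4 := by
  have hk := h k
  rw [div_pow_add h]
  omega

lemma digit_add2 {u v : ℕ} (hu : Dle 1 u) (hv : Dle 1 v) (k : ℕ) :
    (u + v) / 4 ^ k % 4 = u / 4 ^ k % 4 + v / 4 ^ k % 4 :=
  digit_add (fun k => by have := hu k; have := hv k; omega) k

lemma digit_add3 {u v z : ℕ} (hu : Dle 1 u) (hv : Dle 1 v) (hz : Dle 1 z) (k : ℕ) :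
    (u + v + z) / 4 ^ k % 4 = u / 4 ^ k % 4 + v / 4 ^ k % 4 + z / 4 ^ k % 4 := by
  rw [digit_add (fun k => by
    have := hu k; have := hv k; have := hz k; rw [digit_add2 hu hv]; omega) k, digit_add2 hu hv]

lemma P_add2 {N : ℕ} {T : Finset ℕ} {u v u' v' : ℕ} (hu : Dle 1 u) (hv : Dle 1 v)
    (hu' : Dle 1 u') (hv' : Dle 1 v') (h : u + v = u' + v') :
    P N T u + P N T v = P N T u' + P N T v' := by
  apply ext_xy
  intro a ha
  simp only [xc_add, yc_add]
  by_cases haT : a ∈ T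
  · simp only [xc_P_mem haT ha hu, xc_P_mem haT ha hv, xc_P_mem haT ha hu', xc_P_mem haT ha hv',
      yc_P_mem haT ha hu, yc_P_mem haT ha hv, yc_P_mem haT ha hu', yc_P_mem haT ha hv']
    have h1 := digit_add2 hu hv (2 * rk T a)
    have h2 := digit_add2 hu' hv' (2 * rk T a)
    have h3 := digit_add2 hu hv (2 * rk T a + 1)
    have h4 := digit_add2 hu' hv' (2 * rk T a + 1)
    rw [h] at h1 h3
    rw [h2] at h1
    rw [h4] at h3
    constructor
    · exact_mod_cast h1.symm
    · exact_mod_cast h3.symm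
  · simp only [xc_P_not_mem haT ha, yc_P_not_mem haT ha, and_self]

lemma P_add3 {N : ℕ} {T : Finset ℕ} {u v z u' v' z' : ℕ} (hu : Dle 1 u) (hv : Dle 1 v)
    (hz : Dle 1 z) (hu' : Dle 1 u') (hv' : Dle 1 v') (hz' : Dle 1 z')
    (h : u + v + z = u' + v' + z') :
    P N T u + P N T v + P N T z = P N T u' + P N T v' + P N T z' := by
  apply ext_xy
  intro a ha
  simp only [xc_add, yc_add]
  by_cases haT : a ∈ T
  · simp only [xc_P_mem haT ha hu, xc_P_mem haT ha hv, xc_P_mem haT ha hz,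
      xc_P_mem haT ha hu', xc_P_mem haT ha hv', xc_P_mem haT ha hz',
      yc_P_mem haT ha hu, yc_P_mem haT ha hv, yc_P_mem haT ha hz,
      yc_P_mem haT ha hu', yc_P_mem haT ha hv', yc_P_mem haT ha hz']
    have h1 := digit_add3 hu hv hz (2 * rk T a)
    have h2 := digit_add3 hu' hv' hz' (2 * rk T a)
    have h3 := digit_add3 hu hv hz (2 * rk T a + 1)
    have h4 := digit_add3 hu' hv' hz' (2 * rk T a + 1)
    rw [h] at h1 h3
    rw [h2] at h1
    rw [h4] at h3
    constructor
    · exact_mod_cast h1.symm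
    · exact_mod_cast h3.symm
  · simp only [xc_P_not_mem haT ha, yc_P_not_mem haT ha, and_self]

/-! ### Small lemmas on faces and outside legs -/

lemma face_self {E : Type*} [AddCommGroup E] [Module ℝ E] [DecidableEq E]
    {K : Geometry.SimplicialComplex ℝ E} {a b : E} (h : ({a, b} : Finset E) ∈ K.faces) :
    ({a, a} : Finset E) ∈ K.faces ∧ ({b, b} : Finset E) ∈ K.faces ∧
      ({b, a} : Finset E) ∈ K.faces := by
  refine ⟨K.down_closed h (by simp) (by simp), K.down_closed h (by simp) (by simp), ?_⟩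
  rwa [Finset.pair_comm]

lemma out2 {N : ℕ} {ω ω' : ℕ → Bool × Bool} {a : ℕ} (ha : a < N)
    (h1 : xc (pt N ω) a + xc (pt N ω') a = 1 + 1)
    (h2 : yc (pt N ω) a + yc (pt N ω') a = 0 + 0) :
    ω a = (true, false) ∧ ω' a = (true, false) := by
  rw [xc_pt _ ha, xc_pt _ ha] at h1
  rw [yc_pt _ ha, yc_pt _ ha] at h2
  rcases hω : ω a with ⟨x, y⟩
  rcases hω' : ω' a with ⟨x', y'⟩
  rw [hω, hω'] at h1 h2
  cases x <;> cases x' <;> simp at h1
  cases y <;> cases y' <;> simp at h2
  exact ⟨rfl, rfl⟩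

lemma out3 {N : ℕ} {ω ω' ω'' : ℕ → Bool × Bool} {a : ℕ} (ha : a < N)
    (h1 : xc (pt N ω) a + xc (pt N ω') a + xc (pt N ω'') a = 1 + 1 + 1)
    (h2 : yc (pt N ω) a + yc (pt N ω') a + yc (pt N ω'') a = 0 + 0 + 0) :
    ω a = (true, false) ∧ ω' a = (true, false) ∧ ω'' a = (true, false) := by
  rw [xc_pt _ ha, xc_pt _ ha, xc_pt _ ha] at h1
  rw [yc_pt _ ha, yc_pt _ ha, yc_pt _ ha] at h2
  rcases hω : ω a with ⟨x, y⟩
  rcases hω' : ω' a with ⟨x', y'⟩
  rcases hω'' : ω'' a with ⟨x'', y''⟩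
  rw [hω, hω', hω''] at h1 h2
  cases x <;> cases x' <;> cases x'' <;> simp at h1
  cases y <;> cases y' <;> cases y'' <;> simp at h2
  exact ⟨rfl, rfl, rfl⟩

/-- The abstract form of the system, for one 5-subset `T` of the legs. -/
lemma sys_of_T {V : Tr} (hV : IsWordTrie V) {N : ℕ} {T : Finset ℕ} (hT : T ⊆ range N)
    (hc5 : T.card = 5) {K : Geometry.SimplicialComplex ℝ (Fin (2 * N) → ℝ)}
    (hK : IsUnimodularFlagTriangulation (basePolytope (spikeRank N)) K)
    (R : ℕ → ℕ → Prop)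
    (hR : ∀ c c', c < 1048576 → c' < 1048576 → (R c c' ↔
      ({toReal (P N T c), toReal (P N T c')} : Finset (Fin (2 * N) → ℝ)) ∈ K.faces)) :
    (∀ u v, V.mem u = true → V.mem v = true →
      ∃ u' v', V.mem u' = true ∧ V.mem v' = true ∧ R u' v' ∧ u' + v' = u + v) ∧
    (∀ u v u' v', V.mem u = true → V.mem v = true → V.mem u' = true → V.mem v' = true →
      R u v → R u' v' → u + v = u' + v' → u = u' ∨ u = v') ∧
    (∀ u v z, V.mem u = true → V.mem v = true → V.mem z = true →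
      ∃ u' v' z', V.mem u' = true ∧ V.mem v' = true ∧ V.mem z' = true ∧
        R u' v' ∧ R u' z' ∧ R v' z' ∧ u' + v' + z' = u + v + z) ∧
    (∀ u v z u' v' z', V.mem u = true → V.mem v = true → V.mem z = true →
      V.mem u' = true → V.mem v' = true → V.mem z' = true →
      R u v → R u z → R v z → R u' v' → R u' z' → R v' z' → u + v + z = u' + v' + z' →
      u = u' ∨ u = v' ∨ u = z') := by
  have hN : 2 ≤ N := by
    have := Finset.card_le_card hT
    rw [Finset.card_range] at this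
    omega
  have hmemP : ∀ c, V.mem c = true → toReal (P N T c) ∈ basePolytope (spikeRank N) := fun c hc =>
    (mem_basePolytope_iff N hN _).2 ⟨_, rfl, baseW_P hV hT hc5 hc⟩
  have hRm : ∀ c c', V.mem c = true → V.mem c' = true → (R c c' ↔
      ({toReal (P N T c), toReal (P N T c')} : Finset (Fin (2 * N) → ℝ)) ∈ K.faces) :=
    fun c c' h h' => hR c c' (mem_lt hV h) (mem_lt hV h')
  have hD : ∀ c, V.mem c = true → Dle 1 c := fun c h => Tr.mem_dle V c h
  refine ⟨?_, ?_, ?_, ?_⟩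
  · intro u v hu hv
    obtain ⟨m, hmc, hms, hmP, hmK⟩ := exists_clique (convex_basePolytope _) hK
      ({P N T u, P N T v} : Multiset (Fin (2 * N) → ℤ)) (by simp) (by
        intro z hz
        simp only [Multiset.insert_eq_cons, Multiset.mem_cons, Multiset.mem_singleton] at hz
        rcases hz with rfl | rfl
        · exact hmemP _ hu
        · exact hmemP _ hv)
    have hc2 : m.card = 2 := by simpa using hmc
    obtain ⟨x, y, rfl⟩ := Multiset.card_eq_two.1 hc2
    have hsum : x + y = P N T u + P N T v := by simpa using hms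
    obtain ⟨ω, rfl, hω⟩ := (mem_basePolytope_iff N hN _).1 (hmP x (by simp))
    obtain ⟨ω', rfl, hω'⟩ := (mem_basePolytope_iff N hN _).1 (hmP y (by simp))
    have hout : ∀ a < N, a ∉ T → ω a = (true, false) ∧ ω' a = (true, false) := by
      intro a ha haT
      apply out2 ha
      · rw [← xc_add, hsum, xc_add, xc_P_not_mem haT ha, xc_P_not_mem haT ha]
      · rw [← yc_add, hsum, yc_add, yc_P_not_mem haT ha, yc_P_not_mem haT ha]
    obtain ⟨c, hc, hcP⟩ := decode hV hT hc5 hω (fun a ha haT => (hout a ha haT).1)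
    obtain ⟨c', hc', hcP'⟩ := decode hV hT hc5 hω' (fun a ha haT => (hout a ha haT).2)
    refine ⟨c, c', hc, hc', ?_, ?_⟩
    · rw [hRm c c' hc hc', ← hcP, ← hcP']
      exact hmK _ (by simp) _ (by simp)
    · have h := congrArg (Lf T) hsum
      rw [Lf_add, Lf_add, hcP, hcP', Lf_mem hV hT hc5 hc, Lf_mem hV hT hc5 hc',
        Lf_mem hV hT hc5 hu, Lf_mem hV hT hc5 hv] at h
      exact_mod_cast h
  · intro u v u' v' hu hv hu' hv' h1 h2 hs
    rw [hRm _ _ hu hv] at h1
    rw [hRm _ _ hu' hv'] at h2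
    have h := unique_clique hK ({P N T u, P N T v} : Multiset (Fin (2 * N) → ℤ))
      ({P N T u', P N T v'} : Multiset (Fin (2 * N) → ℤ)) (by simp)
      (by simpa using P_add2 (hD u hu) (hD v hv) (hD u' hu') (hD v' hv') hs)
      (by
        intro x hx y hy
        simp only [Multiset.insert_eq_cons, Multiset.mem_cons, Multiset.mem_singleton] at hx hy
        have f := face_self h1
        rcases hx with rfl | rfl <;> rcases hy with rfl | rfl
        · exact f.1
        · exact h1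
        · exact f.2.2
        · exact f.2.1)
      (by
        intro x hx y hy
        simp only [Multiset.insert_eq_cons, Multiset.mem_cons, Multiset.mem_singleton] at hx hy
        have f := face_self h2
        rcases hx with rfl | rfl <;> rcases hy with rfl | rfl
        · exact f.1
        · exact h2
        · exact f.2.2
        · exact f.2.1)
    have hm : P N T u ∈ ({P N T u', P N T v'} : Multiset (Fin (2 * N) → ℤ)) := by
      rw [← h]; simp
    simp only [Multiset.insert_eq_cons, Multiset.mem_cons, Multiset.mem_singleton] at hm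
    rcases hm with hm | hm
    · exact Or.inl (P_injOn hV hT hc5 hu hu' hm)
    · exact Or.inr (P_injOn hV hT hc5 hu hv' hm)
  · intro u v w hu hv hw
    obtain ⟨m, hmc, hms, hmP, hmK⟩ := exists_clique (convex_basePolytope _) hK
      ({P N T u, P N T v, P N T w} : Multiset (Fin (2 * N) → ℤ)) (by simp) (by
        intro z hz
        simp only [Multiset.insert_eq_cons, Multiset.mem_cons, Multiset.mem_singleton] at hz
        rcases hz with rfl | rfl | rfl
        · exact hmemP _ hu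
        · exact hmemP _ hv
        · exact hmemP _ hw)
    have hc2 : m.card = 3 := by simpa using hmc
    obtain ⟨x, y, z, rfl⟩ := Multiset.card_eq_three.1 hc2
    have hsum : x + y + z = P N T u + P N T v + P N T w := by
      simpa [add_assoc] using hms
    obtain ⟨ω, rfl, hω⟩ := (mem_basePolytope_iff N hN _).1 (hmP x (by simp))
    obtain ⟨ω', rfl, hω'⟩ := (mem_basePolytope_iff N hN _).1 (hmP y (by simp))
    obtain ⟨ω'', rfl, hω''⟩ := (mem_basePolytope_iff N hN _).1 (hmP z (by simp))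
    have hout : ∀ a < N, a ∉ T → ω a = (true, false) ∧ ω' a = (true, false) ∧
        ω'' a = (true, false) := by
      intro a ha haT
      apply out3 ha
      · rw [← xc_add, ← xc_add, hsum, xc_add, xc_add, xc_P_not_mem haT ha, xc_P_not_mem haT ha,
          xc_P_not_mem haT ha]
      · rw [← yc_add, ← yc_add, hsum, yc_add, yc_add, yc_P_not_mem haT ha, yc_P_not_mem haT ha,
          yc_P_not_mem haT ha]
    obtain ⟨c, hc, hcP⟩ := decode hV hT hc5 hω (fun a ha haT => (hout a ha haT).1)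
    obtain ⟨c', hc', hcP'⟩ := decode hV hT hc5 hω' (fun a ha haT => (hout a ha haT).2.1)
    obtain ⟨c'', hc'', hcP''⟩ := decode hV hT hc5 hω'' (fun a ha haT => (hout a ha haT).2.2)
    refine ⟨c, c', c'', hc, hc', hc'', ?_, ?_, ?_, ?_⟩
    · rw [hRm c c' hc hc', ← hcP, ← hcP']
      exact hmK _ (by simp) _ (by simp)
    · rw [hRm c c'' hc hc'', ← hcP, ← hcP'']
      exact hmK _ (by simp) _ (by simp)
    · rw [hRm c' c'' hc' hc'', ← hcP', ← hcP'']
      exact hmK _ (by simp) _ (by simp)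
    · have h := congrArg (Lf T) hsum
      rw [Lf_add, Lf_add, Lf_add, Lf_add, hcP, hcP', hcP'', Lf_mem hV hT hc5 hc,
        Lf_mem hV hT hc5 hc', Lf_mem hV hT hc5 hc'', Lf_mem hV hT hc5 hu, Lf_mem hV hT hc5 hv,
        Lf_mem hV hT hc5 hw] at h
      exact_mod_cast h
  · intro u v w u' v' w' hu hv hw hu' hv' hw' h1 h2 h3 h1' h2' h3' hs
    rw [hRm _ _ hu hv] at h1
    rw [hRm _ _ hu hw] at h2
    rw [hRm _ _ hv hw] at h3
    rw [hRm _ _ hu' hv'] at h1'
    rw [hRm _ _ hu' hw'] at h2'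
    rw [hRm _ _ hv' hw'] at h3'
    have h := unique_clique hK ({P N T u, P N T v, P N T w} : Multiset (Fin (2 * N) → ℤ))
      ({P N T u', P N T v', P N T w'} : Multiset (Fin (2 * N) → ℤ)) (by simp)
      (by
        have := P_add3 (N := N) (T := T) (hD u hu) (hD v hv) (hD w hw) (hD u' hu') (hD v' hv')
          (hD w' hw') hs
        simpa [add_assoc] using this)
      (by
        intro x hx y hy
        simp only [Multiset.insert_eq_cons, Multiset.mem_cons, Multiset.mem_singleton] at hx hy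
        have f1 := face_self h1
        have f2 := face_self h2
        have f3 := face_self h3
        rcases hx with rfl | rfl | rfl <;> rcases hy with rfl | rfl | rfl
        · exact f1.1
        · exact h1
        · exact h2
        · exact f1.2.2
        · exact f1.2.1
        · exact h3
        · exact f2.2.2
        · exact f3.2.2
        · exact f3.2.1)
      (by
        intro x hx y hy
        simp only [Multiset.insert_eq_cons, Multiset.mem_cons, Multiset.mem_singleton] at hx hy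
        have f1 := face_self h1'
        have f2 := face_self h2'
        have f3 := face_self h3'
        rcases hx with rfl | rfl | rfl <;> rcases hy with rfl | rfl | rfl
        · exact f1.1
        · exact h1'
        · exact h2'
        · exact f1.2.2
        · exact f1.2.1
        · exact h3'
        · exact f2.2.2
        · exact f3.2.2
        · exact f3.2.1)
    have hm : P N T u ∈ ({P N T u', P N T v', P N T w'} : Multiset (Fin (2 * N) → ℤ)) := by
      rw [← h]; simp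
    simp only [Multiset.insert_eq_cons, Multiset.mem_cons, Multiset.mem_singleton] at hm
    rcases hm with hm | hm | hm
    · exact Or.inl (P_injOn hV hT hc5 hu hu' hm)
    · exact Or.inr (Or.inl (P_injOn hV hT hc5 hu hv' hm))
    · exact Or.inr (Or.inr (P_injOn hV hT hc5 hu hw' hm))

lemma ins_lt {i a : ℕ} (hi : i < 5) (ha : a < 65536) : ins i a < 1048576 := by
  unfold ins
  interval_cases i <;> norm_num <;> omega

theorem exists_sys (V : Tr) (hV : IsWordTrie V) : ∃ N0 : ℕ, ∀ N, N0 ≤ N →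
    ∀ K : Geometry.SimplicialComplex ℝ (Fin (2 * N) → ℝ),
      IsUnimodularFlagTriangulation (basePolytope (spikeRank N)) K →
      ∃ R : ℕ → ℕ → Prop, Sys V R := by
  classical
  obtain ⟨N1, hN1⟩ := ramsey (c := Fin 1048576 → Fin 1048576 → Prop) 5 6
  refine ⟨N1, fun N hN K hK => ?_⟩
  obtain ⟨H, hHS, hH6, col, hcol⟩ := hN1 (range N) (by simpa using hN)
    (fun T c c' => ({toReal (P N T c), toReal (P N T c')} : Finset (Fin (2 * N) → ℝ)) ∈ K.faces)
  set R : ℕ → ℕ → Prop := fun c c' => ∃ (h : c < 1048576) (h' : c' < 1048576),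
    col ⟨c, h⟩ ⟨c', h'⟩ with hRdef
  have hR : ∀ T ⊆ H, T.card = 5 → ∀ c c', c < 1048576 → c' < 1048576 → (R c c' ↔
      ({toReal (P N T c), toReal (P N T c')} : Finset (Fin (2 * N) → ℝ)) ∈ K.faces) := by
    intro T hT h5 c c' hc hc'
    have h := hcol T hT h5
    have h1 := congrFun (congrFun h ⟨c, hc⟩) ⟨c', hc'⟩
    simp only at h1
    rw [h1]
    exact ⟨fun ⟨_, _, h2⟩ => h2, fun h2 => ⟨hc, hc', h2⟩⟩
  have herase : ∀ p ∈ H, H.erase p ⊆ H ∧ (H.erase p).card = 5 := by
    intro p hp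
    refine ⟨Finset.erase_subset _ _, ?_⟩
    rw [Finset.card_erase_of_mem hp, hH6]
  obtain ⟨p0, hp0⟩ : H.Nonempty := Finset.card_pos.1 (by omega)
  have hT0 := herase p0 hp0
  have hS := sys_of_T hV (hT0.1.trans hHS) hT0.2 hK R (hR _ hT0.1 hT0.2)
  have shiftle : ∀ i j, i ≤ j → j < 5 → ∀ a b, a < 65536 → b < 65536 →
      (R (ins i a) (ins i b) ↔ R (ins j a) (ins j b)) := by
    intro i j hij hj a b ha hb
    obtain ⟨q, hq, hqi⟩ := exists_rk (T := H) (k := i) (by omega)
    obtain ⟨p, hp, hpj⟩ := exists_rk (T := H) (k := j + 1) (by omega)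
    have e1 := emb_shift hij hj hH6 hp hq hqi hpj (a := a)
    have e2 := emb_shift hij hj hH6 hp hq hqi hpj (a := b)
    rw [hR _ (herase p hp).1 (herase p hp).2 _ _ (ins_lt (by omega) ha) (ins_lt (by omega) hb),
      hR _ (herase q hq).1 (herase q hq).2 _ _ (ins_lt hj ha) (ins_lt hj hb)]
    unfold P
    rw [e1, e2]
  refine ⟨R, ?_, hS.1, hS.2.1, hS.2.2.1, hS.2.2.2, ?_⟩
  · intro u v huv
    obtain ⟨hu, hv, _⟩ := id huv
    rw [hR _ hT0.1 hT0.2 _ _ hu hv] at huv
    rw [hR _ hT0.1 hT0.2 _ _ hv hu, Finset.pair_comm]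
    exact huv
  · intro i j hi hj a b ha hb
    rcases le_total i j with h | h
    · exact shiftle i j h hj a b ha hb
    · exact (shiftle j i h hi a b ha hb).symm

end Pool.Agent.Work.MP_b2b647_co
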