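import Pool.Agent.Work.MP_b2b647_co.Check

/-!
The semantic side of the finite refutation.  Words of length five over the leg states are coded by
numbers below `2 ^ 20`: the leg `i` has the base-16 digit `x + 4 y` with `x, y ∈ {0, 1}`.
-/

namespace Pool.Agent.Work.MP_b2b647_co.Check

/-- All base-4 digits of `s` are at most `k`. -/
def Dle (k s : ℕ) : Prop := ∀ i, s / 4 ^ i % 4 ≤ k

lemma Dle.div {k s : ℕ} (h : Dle k s) : Dle k (s / 4) := by
  intro i
  have := h (i + 1)
  rwa [pow_succ', ← Nat.div_div_eq_div_mul] at this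

lemma Dle.mod {k s : ℕ} (h : Dle k s) : s % 4 ≤ k := by
  simpa using h 0

lemma Tr.mem_node (l r : Tr) (k : ℕ) (h : (Tr.node l r).mem k = true) :
    (k % 4 = 0 ∧ l.mem (k / 4) = true) ∨ (k % 4 = 1 ∧ r.mem (k / 4) = true) := by
  have hdef : (Tr.node l r).mem k =
      Bool.rec
        (Bool.rec false (r.mem (Nat.div k 4)) (Nat.beq (Nat.mod k 4) 1))
        (l.mem (Nat.div k 4))
        (Nat.beq (Nat.mod k 4) 0) := rfl
  rw [hdef] at h
  cases h0 : Nat.beq (Nat.mod k 4) 0 with
  | true => rw [h0] at h; exact Or.inl ⟨Nat.eq_of_beq_eq_true h0, h⟩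
  | false =>
    rw [h0] at h
    cases h1 : Nat.beq (Nat.mod k 4) 1 with
    | true => rw [h1] at h; exact Or.inr ⟨Nat.eq_of_beq_eq_true h1, h⟩
    | false => rw [h1] at h; exact absurd h (by simp)

lemma Tr.mem_dle : ∀ (t : Tr) (k : ℕ), t.mem k = true → Dle 1 k := by
  intro t
  induction t with
  | nil => intro k h; exact absurd h (by simp [Tr.mem])
  | leaf =>
    intro k h
    have hk : k = 0 := Nat.eq_of_beq_eq_true h
    subst hk
    intro i
    simp
  | node l r ihl ihr =>
    intro k h
    have key : k % 4 ≤ 1 ∧ Dle 1 (k / 4) := by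
      rcases Tr.mem_node l r k h with ⟨h1, h2⟩ | ⟨h1, h2⟩
      · exact ⟨by omega, ihl _ h2⟩
      · exact ⟨by omega, ihr _ h2⟩
    intro i
    cases i with
    | zero => simpa using key.1
    | succ i =>
      have := key.2 i
      rwa [Nat.div_div_eq_div_mul, ← pow_succ'] at this

lemma dle_add : ∀ (i : ℕ) (v z : ℕ), Dle 1 v → Dle 1 z → (v + z) / 4 ^ i % 4 ≤ 2 := by
  intro i
  induction i with
  | zero =>
    intro v z hv hz
    have h1 := hv.mod
    have h2 := hz.mod
    simp only [pow_zero, Nat.div_one]
    omega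
  | succ i ih =>
    intro v z hv hz
    rw [pow_succ', ← Nat.div_div_eq_div_mul]
    have h1 := hv.mod
    have h2 := hz.mod
    have : (v + z) / 4 = v / 4 + z / 4 := by omega
    rw [this]
    exact ih _ _ hv.div hz.div

lemma Tr.all_spec {m : ℕ} (hm : 1 ≤ m) (hm3 : m ≤ 3) {P : ℕ → Bool} :
    ∀ (t : Tr) (w p acc : ℕ), Tr.all m P t w p acc = true →
      ∀ u s, t.mem u = true → Dle (m - 1) s → u + s = w → P (acc + p * u) = true := by
  intro t
  induction t with
  | nil => intro w p acc _ u s hu; exact absurd hu (by simp [Tr.mem])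
  | leaf =>
    intro w p acc h u s hu _ _
    have hu0 : u = 0 := Nat.eq_of_beq_eq_true hu
    subst hu0
    exact h
  | node l r ihl ihr =>
    intro w p acc h u s hu hs hw
    have hdef : Tr.all m P (Tr.node l r) w p acc =
      Bool.rec
        (Bool.rec
          (Bool.rec false (Tr.all m P r (Nat.div w 4) (Nat.mul p 4) (Nat.add acc p))
            (Tr.all m P l (Nat.div w 4) (Nat.mul p 4) acc))
          (Tr.all m P r (Nat.div w 4) (Nat.mul p 4) (Nat.add acc p))
          (Nat.beq (Nat.mod w 4) m))
        (Tr.all m P l (Nat.div w 4) (Nat.mul p 4) acc)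
        (Nat.beq (Nat.mod w 4) 0) := rfl
    rw [hdef] at h
    have hsm := hs.mod
    have hmod : Nat.mod w 4 = w % 4 := rfl
    rcases Tr.mem_node l r u hu with ⟨h1, h2⟩ | ⟨h1, h2⟩
    · -- left
      have hl : Tr.all m P l (Nat.div w 4) (Nat.mul p 4) acc = true := by
        cases h0 : Nat.beq (Nat.mod w 4) 0 with
        | true => rw [h0] at h; exact h
        | false =>
          rw [h0] at h
          cases h3 : Nat.beq (Nat.mod w 4) m with
          | true =>
            have : w % 4 = m := Nat.eq_of_beq_eq_true h3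
            omega
          | false =>
            rw [h3] at h
            cases h4 : Tr.all m P l (Nat.div w 4) (Nat.mul p 4) acc with
            | true => rfl
            | false => rw [h4] at h; exact absurd h (by simp)
      have := ihl _ _ _ hl (u / 4) (s / 4) h2 hs.div (by
        change u / 4 + s / 4 = w / 4
        omega)
      have e : acc + Nat.mul p 4 * (u / 4) = acc + p * u := by
        have hu4 : u = 4 * (u / 4) := by omega
        change acc + (p * 4) * (u / 4) = acc + p * u
        rw [mul_assoc, ← hu4]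
      rwa [e] at this
    · have hr : Tr.all m P r (Nat.div w 4) (Nat.mul p 4) (Nat.add acc p) = true := by
        cases h0 : Nat.beq (Nat.mod w 4) 0 with
        | true =>
          have : w % 4 = 0 := Nat.eq_of_beq_eq_true h0
          omega
        | false =>
          rw [h0] at h
          cases h3 : Nat.beq (Nat.mod w 4) m with
          | true => rw [h3] at h; exact h
          | false =>
            rw [h3] at h
            cases h4 : Tr.all m P l (Nat.div w 4) (Nat.mul p 4) acc with
            | true => rw [h4] at h; exact h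
            | false => rw [h4] at h; exact absurd h (by simp)
      have := ihr _ _ _ hr (u / 4) (s / 4) h2 hs.div (by
        change u / 4 + s / 4 = w / 4
        omega)
      have e : Nat.add acc p + Nat.mul p 4 * (u / 4) = acc + p * u := by
        have hu4 : u = 4 * (u / 4) + 1 := by omega
        change (acc + p) + (p * 4) * (u / 4) = acc + p * u
        conv_rhs => rw [hu4]
        ring
      rwa [e] at this

lemma Tr.every_spec {P : ℕ → Bool} :
    ∀ (t : Tr) (p acc : ℕ), Tr.every P t p acc = true →
      ∀ u, t.mem u = true → P (acc + p * u) = true := by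
  intro t
  induction t with
  | nil => intro p acc _ u hu; exact absurd hu (by simp [Tr.mem])
  | leaf =>
    intro p acc h u hu
    have hu0 : u = 0 := Nat.eq_of_beq_eq_true hu
    subst hu0
    exact h
  | node l r ihl ihr =>
    intro p acc h u hu
    have hdef : Tr.every P (Tr.node l r) p acc =
      Bool.rec false (Tr.every P r (Nat.mul p 4) (Nat.add acc p))
        (Tr.every P l (Nat.mul p 4) acc) := rfl
    rw [hdef] at h
    cases hl : Tr.every P l (Nat.mul p 4) acc with
    | false => rw [hl] at h; exact absurd h (by simp)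
    | true =>
      rw [hl] at h
      rcases Tr.mem_node l r u hu with ⟨h1, h2⟩ | ⟨h1, h2⟩
      · have := ihl _ _ hl (u / 4) h2
        have e : acc + Nat.mul p 4 * (u / 4) = acc + p * u := by
          have hu4 : u = 4 * (u / 4) := by omega
          change acc + (p * 4) * (u / 4) = acc + p * u
          rw [mul_assoc, ← hu4]
        rwa [e] at this
      · have := ihr _ _ h (u / 4) h2
        have e : Nat.add acc p + Nat.mul p 4 * (u / 4) = acc + p * u := by
          have hu4 : u = 4 * (u / 4) + 1 := by omega
          change (acc + p) + (p * 4) * (u / 4) = acc + p * u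
          conv_rhs => rw [hu4]
          ring
        rwa [e] at this

/-- Insert the default state (digit 1) at position `i` into a word of length four. -/
def ins (i a : ℕ) : ℕ := a % 16 ^ i + 16 ^ i + 16 ^ (i + 1) * (a / 16 ^ i)

/-- The finite system of conditions satisfied by the adjacency relation `R` on the words (members
of the trie `V`). -/
structure Sys (V : Tr) (R : ℕ → ℕ → Prop) : Prop where
  symm : ∀ u v, R u v → R v u
  e2 : ∀ u v, V.mem u = true → V.mem v = true →
    ∃ u' v', V.mem u' = true ∧ V.mem v' = true ∧ R u' v' ∧ u' + v' = u + v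
  u2 : ∀ u v u' v', V.mem u = true → V.mem v = true → V.mem u' = true → V.mem v' = true →
    R u v → R u' v' → u + v = u' + v' → u = u' ∨ u = v'
  e3 : ∀ u v z, V.mem u = true → V.mem v = true → V.mem z = true →
    ∃ u' v' z', V.mem u' = true ∧ V.mem v' = true ∧ V.mem z' = true ∧
      R u' v' ∧ R u' z' ∧ R v' z' ∧ u' + v' + z' = u + v + z
  u3 : ∀ u v z u' v' z', V.mem u = true → V.mem v = true → V.mem z = true →
    V.mem u' = true → V.mem v' = true → V.mem z' = true →
    R u v → R u z → R v z → R u' v' → R u' z' → R v' z' → u + v + z = u' + v' + z' →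
    u = u' ∨ u = v' ∨ u = z'
  shift : ∀ i j, i < 5 → j < 5 → ∀ a b, a < 65536 → b < 65536 →
    (R (ins i a) (ins i b) ↔ R (ins j a) (ins j b))

/-- The packed pair `p` is adjacent. -/
def RP (R : ℕ → ℕ → Prop) (p : ℕ) : Prop := R (p % 1048576) (p / 1048576)

lemma mv_lt {i u : ℕ} (hi : i < 5) (hu : u < 1048576) : mv (16 ^ i) u < 1048576 := by
  change u % 16 ^ i + 16 ^ i * (u / (16 * 16 ^ i)) + 65536 < 1048576
  interval_cases i <;> norm_num <;> omega

lemma exists_ins {i u : ℕ} (hi : i < 5) (hu : u < 1048576) (hx : isX (16 ^ i) u = true) :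
    ∃ a, a < 65536 ∧ ins i a = u ∧ ins 4 a = mv (16 ^ i) u := by
  have hx' : u / 16 ^ i % 16 = 1 := Nat.eq_of_beq_eq_true hx
  refine ⟨u % 16 ^ i + 16 ^ i * (u / (16 * 16 ^ i)), ?_, ?_, ?_⟩
  · interval_cases i <;> norm_num <;> omega
  · unfold ins
    interval_cases i <;> norm_num at hx' ⊢ <;> omega
  · change ins 4 _ = u % 16 ^ i + 16 ^ i * (u / (16 * 16 ^ i)) + 65536
    unfold ins
    interval_cases i <;> norm_num <;> omega

lemma canon_spec {V : Tr} {R : ℕ → ℕ → Prop} (S : Sys V R) :
    ∀ (fuel i u v : ℕ), i + fuel ≤ 5 → u < 1048576 → v < 1048576 →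
      (RP R (canon fuel (16 ^ i) u v) ↔ R u v) := by
  intro fuel
  induction fuel with
  | zero =>
    intro i u v _ hu hv
    have hdef : canon 0 (16 ^ i) u v =
      Bool.rec (Nat.add v (Nat.mul u 1048576)) (Nat.add u (Nat.mul v 1048576)) (Nat.ble u v) := rfl
    rw [hdef]
    cases Nat.ble u v with
    | true =>
      have h1 : (u + v * 1048576) % 1048576 = u := by omega
      have h2 : (u + v * 1048576) / 1048576 = v := by omega
      change R ((u + v * 1048576) % 1048576) ((u + v * 1048576) / 1048576) ↔ R u v
      rw [h1, h2]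
    | false =>
      have h1 : (v + u * 1048576) % 1048576 = v := by omega
      have h2 : (v + u * 1048576) / 1048576 = u := by omega
      change R ((v + u * 1048576) % 1048576) ((v + u * 1048576) / 1048576) ↔ R u v
      rw [h1, h2]
      exact ⟨S.symm _ _, S.symm _ _⟩
  | succ f ih =>
    intro i u v hi hu hv
    have hdef : canon (f + 1) (16 ^ i) u v =
      Bool.rec (canon f (Nat.mul 16 (16 ^ i)) u v)
        (Bool.rec (canon f (Nat.mul 16 (16 ^ i)) u v)
          (canon f (16 ^ i) (mv (16 ^ i) u) (mv (16 ^ i) v)) (isX (16 ^ i) v))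
          (isX (16 ^ i) u) := rfl
    have hp : Nat.mul 16 (16 ^ i) = 16 ^ (i + 1) := by
      change 16 * 16 ^ i = 16 ^ (i + 1)
      rw [pow_succ']
    rw [hdef, hp]
    cases h1 : isX (16 ^ i) u with
    | false => exact ih (i + 1) u v (by omega) hu hv
    | true =>
      cases h2 : isX (16 ^ i) v with
      | false => exact ih (i + 1) u v (by omega) hu hv
      | true =>
        have hi5 : i < 5 := by omega
        obtain ⟨a, ha, ha1, ha2⟩ := exists_ins hi5 hu h1
        obtain ⟨b, hb, hb1, hb2⟩ := exists_ins hi5 hv h2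
        have := ih i (mv (16 ^ i) u) (mv (16 ^ i) v) (by omega) (mv_lt hi5 hu) (mv_lt hi5 hv)
        refine this.trans ?_
        rw [← ha2, ← hb2, ← S.shift i 4 hi5 (by omega) a b ha hb, ha1, hb1]

end Pool.Agent.Work.MP_b2b647_co.Check
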