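import Pool.Agent.Work.MP_b2b647_co.SpikeDefs
import Pool.Agent.Work.MP_b2b647_co.Geo
import Pool.Agent.Work.MP_b2b647_co.Ramsey
import Pool.Agent.Work.MP_b2b647_co.Sem

namespace Pool.Agent.Work.MP_b2b647_co

open Finset Check

/-- The word of leg states coded by `c`: the base-16 digit of the leg `i` is `x + 4 y`. -/
def wd (c : ℕ) (i : ℕ) : Bool × Bool :=
  (decide (c / 16 ^ i % 2 = 1), decide (c / 16 ^ i / 4 % 2 = 1))

/-- `V` is the trie of the words of the bases for five legs. -/
def IsWordTrie (V : Tr) : Prop :=
  ∀ c, V.mem c = true ↔ c < 1048576 ∧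
    (∀ i < 5, c / 16 ^ i % 16 = 0 ∨ c / 16 ^ i % 16 = 1 ∨ c / 16 ^ i % 16 = 4 ∨
      c / 16 ^ i % 16 = 5) ∧ BaseW 5 (wd c)

/-- The word `ω` on the legs in `T` (in increasing order), all other legs in the state
`(true, false)`. -/
def emb (T : Finset ℕ) (ω : ℕ → Bool × Bool) : ℕ → Bool × Bool :=
  fun a => if a ∈ T then ω #{b ∈ T | b < a} else (true, false)

/- Package (D), Pull.lean (may use the statements of Spike.lean, see SpikeDefs.lean):
theorem exists_sys (V : Tr) (hV : IsWordTrie V) : ∃ N0 : ℕ, ∀ N, N0 ≤ N →
    ∀ K : Geometry.SimplicialComplex ℝ (Fin (2 * N) → ℝ),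
      IsUnimodularFlagTriangulation (basePolytope (spikeRank N)) K → ∃ R : ℕ → ℕ → Prop, Sys V R
Plan: N0 = max 10 (Ramsey number for k = 5, m = 6), S = range N, the colour of T is the relation
  fun c c' : Fin (2 ^ 20) => {toReal (pt N (emb T (wd c))), toReal (pt N (emb T (wd c')))} ∈ K.faces.
R c c' := the common colour on the 5-subsets of H (card 6), for c, c' < 2 ^ 20.
* e2, e3: exists_clique for the points of the words, T a fixed 5-subset of H.  The points of the
  clique are pt N ω with BaseW N ω; outside the legs of T the sum forces the state (true, false);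
  so they are pt N (emb T (wd c)) for c = sum of (x + 4 y) 16 ^ i over the legs of T, and BaseW 5 (wd c)
  since cnt N (emb T ω) s = cnt 5 ω s + (if s = (true, false) then N - 5 else 0).
  The code is a linear functional of the point, so the codes have the same sum.
* u2, u3: equal sums of codes of members give equal sums of points (base-16 digits x + 4 y with
  x, y ≤ 3 do not carry); then unique_clique, and c ↦ pt N (emb T (wd c)) is injective on members.
* shift: for i ≤ j let p, q ∈ H with #{b ∈ H | b < q} = i and #{b ∈ H | b < p} = j + 1; then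
  emb (H.erase p) (wd (ins i a)) = emb (H.erase q) (wd (ins j a)) on all legs.
-/
theorem pullDefs_ok : True := trivial

end Pool.Agent.Work.MP_b2b647_co
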