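import Pool.Agent.Work.MP_b2b647_co.Defs

namespace Pool.Agent.Work.MP_b2b647_co

open Finset

/-- The columns of the tipless binary spike of rank `r`: for the leg `i < r`, the element `2 i` is
the unit vector `e_i` and the element `2 i + 1` is `e_i` plus the all-one vector. -/
def spikeVec (r : ℕ) (j : Fin (2 * r)) : Fin r → ZMod 2 :=
  fun i => (if (j : ℕ) / 2 = (i : ℕ) then 1 else 0) + (if (j : ℕ) % 2 = 1 then 1 else 0)

/-- The rank function of the tipless binary spike of rank `r`. -/
noncomputable def spikeRank (r : ℕ) (S : Finset (Fin (2 * r))) : ℕ :=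
  Module.finrank (ZMod 2) (Submodule.span (ZMod 2) (spikeVec r '' (S : Set (Fin (2 * r)))))

/-- The 0/1 vector of a word `ω` of leg states: `(ω i).1` says whether `2 i` is used and `(ω i).2`
whether `2 i + 1` is used. -/
def pt (r : ℕ) (ω : ℕ → Bool × Bool) : Fin (2 * r) → ℤ :=
  fun j => if (if (j : ℕ) % 2 = 0 then (ω (j / 2)).1 else (ω (j / 2)).2) then 1 else 0

/-- The number of legs `i < r` in state `s`. -/
def cnt (r : ℕ) (ω : ℕ → Bool × Bool) (s : Bool × Bool) : ℕ := #{i ∈ range r | ω i = s}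

/-- The words of the bases of the tipless binary spike. -/
def BaseW (r : ℕ) (ω : ℕ → Bool × Bool) : Prop :=
  (cnt r ω (true, true) = 0 ∧ cnt r ω (false, false) = 0 ∧ Even (cnt r ω (false, true))) ∨
    (cnt r ω (true, true) = 1 ∧ cnt r ω (false, false) = 1)

/- Package (C), Spike.lean:
theorem convex_basePolytope {n : ℕ} (f : Finset (Fin n) → ℕ) : Convex ℝ (basePolytope f)
theorem spikeRank_polymatroid (r : ℕ) : IsIntegerPolymatroid (spikeRank r)
theorem mem_basePolytope_iff (r : ℕ) (hr : 2 ≤ r) (z : Fin (2 * r) → ℤ) :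
    toReal z ∈ basePolytope (spikeRank r) ↔ ∃ ω : ℕ → Bool × Bool, z = pt r ω ∧ BaseW r ω
-/
theorem spikeDefs_ok : True := trivial

end Pool.Agent.Work.MP_b2b647_co
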